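import Mathlib

set_option autoImplicit false

namespace Pool.Agent.Lib.MP1f269e

open Finset

/-- the level 7 sequence -/
def TT (n : ℕ) : ℕ :=
  ∑ j ∈ Finset.range (n + 1), (n.choose j) ^ 2 * (2 * j).choose n * (n + j).choose j

lemma TT_ext (n m : ℕ) (h : n + 1 ≤ m) :
    TT n = ∑ j ∈ Finset.range m, (n.choose j) ^ 2 * (2 * j).choose n * (n + j).choose j := by
  unfold TT
  apply Finset.sum_subset
  · intro x hx
    simp only [Finset.mem_range] at *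
    omega
  · intro x _ hx
    simp only [Finset.mem_range, not_lt] at hx
    rw [Nat.choose_eq_zero_of_lt (by omega)]
    simp

lemma ch1 (a k : ℕ) : ((k : ℤ) + 1) * ((a.choose (k + 1) : ℕ) : ℤ) = ((a : ℤ) - k) * (a.choose k : ℕ) := by
  rcases le_or_gt k a with h | h
  · have := Nat.choose_succ_right_eq a k
    have h2 : ((a.choose (k + 1) * (k + 1) : ℕ) : ℤ) = ((a.choose k * (a - k) : ℕ) : ℤ) := by
      exact_mod_cast this
    push_cast [Nat.cast_sub h] at h2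
    linarith
  · rw [Nat.choose_eq_zero_of_lt h, Nat.choose_eq_zero_of_lt (by omega)]
    simp

lemma ch2 (a k : ℕ) : ((a : ℤ) + 1) * ((a.choose k : ℕ) : ℤ) = ((a : ℤ) + 1 - k) * ((a + 1).choose k : ℕ) := by
  rcases le_or_gt k (a + 1) with h | h
  · have := Nat.choose_mul_succ_eq a k
    have h2 : ((a.choose k * (a + 1) : ℕ) : ℤ) = (((a + 1).choose k * (a + 1 - k) : ℕ) : ℤ) := by
      exact_mod_cast this
    push_cast [Nat.cast_sub h] at h2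
    linarith
  · rw [Nat.choose_eq_zero_of_lt h, Nat.choose_eq_zero_of_lt (by omega)]
    simp

lemma ch3 (a k : ℕ) : ((k : ℤ) + 1) * (((a + 1).choose (k + 1) : ℕ) : ℤ) = ((a : ℤ) + 1) * (a.choose k : ℕ) := by
  have := Nat.add_one_mul_choose_eq a k
  have h2 : (((a + 1) * a.choose k : ℕ) : ℤ) = (((a + 1).choose (k + 1) * (k + 1) : ℕ) : ℤ) := by
    exact_mod_cast this
  push_cast at h2
  linarith

/-- summand -/
def F (n j : ℕ) : ℤ := ((n.choose j : ℕ) : ℤ) ^ 2 * ((2 * j).choose n : ℕ) * ((n + j).choose j : ℕ)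

def Hh (n j : ℕ) : ℤ := (((n + 2).choose j : ℕ) : ℤ) ^ 2 * ((2 * j).choose n : ℕ) * ((n + j).choose j : ℕ)

def Ss (n j : ℤ) : ℤ := (n + 2) ^ 2 * (7 * n + 11) - 13 * (2 * n + 3) * (n + 2) * j + (15 * n + 22) * j ^ 2

def Gg (n j : ℕ) : ℤ :=
  (j : ℤ) ^ 2 * (2 * j - n) * (2 * j - n - 1) * Ss n j * Hh n j

lemma F0 (n j : ℕ) : ((n : ℤ) + 1) ^ 2 * ((n : ℤ) + 2) ^ 2 * F n j
    = (((n : ℤ) + 1 - j) * ((n : ℤ) + 2 - j)) ^ 2 * Hh n j := by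
  have h1 := ch2 n j
  have h2 := ch2 (n + 1) j
  push_cast at h2
  have h3 : ((n : ℤ) + 1) * ((n : ℤ) + 2) * ((n.choose j : ℕ) : ℤ)
      = ((n : ℤ) + 1 - j) * ((n : ℤ) + 2 - j) * (((n + 2).choose j : ℕ) : ℤ) := by
    have : (((n + 1 + 1).choose j : ℕ) : ℤ) = (((n + 2).choose j : ℕ) : ℤ) := rfl
    rw [← this]
    linear_combination ((n : ℤ) + 2) * h1 + ((n : ℤ) + 1 - j) * h2
  unfold F Hh
  linear_combination (((n : ℤ) + 1) * ((n : ℤ) + 2) * ((n.choose j : ℕ) : ℤ)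
      + ((n : ℤ) + 1 - j) * ((n : ℤ) + 2 - j) * (((n + 2).choose j : ℕ) : ℤ)) *
      ((2 * j).choose n : ℕ) * ((n + j).choose j : ℕ) * h3

lemma chx (n j : ℕ) : ((n : ℤ) + 1) * (((n + 1 + j).choose j : ℕ) : ℤ)
    = ((n : ℤ) + 1 + j) * (((n + j).choose j : ℕ) : ℤ) := by
  have h := ch2 (n + j) j
  have e : n + j + 1 = n + 1 + j := by ring
  rw [e] at h
  push_cast at h
  linear_combination -h

lemma F1 (n j : ℕ) : ((n : ℤ) + 1) ^ 2 * ((n : ℤ) + 2) ^ 2 * F (n + 1) j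
    = ((n : ℤ) + 2 - j) ^ 2 * (2 * j - n) * ((n : ℤ) + 1 + j) * Hh n j := by
  have h2 := ch2 (n + 1) j
  push_cast at h2
  have h3 := ch1 (2 * j) n
  push_cast at h3
  have h4 := chx n j
  unfold F Hh
  have e : (((n + 1 + 1).choose j : ℕ) : ℤ) = (((n + 2).choose j : ℕ) : ℤ) := rfl
  rw [e] at h2
  have h5 : ((n : ℤ) + 2) ^ 2 * (((n + 1).choose j : ℕ) : ℤ) ^ 2
      = ((n : ℤ) + 2 - j) ^ 2 * (((n + 2).choose j : ℕ) : ℤ) ^ 2 := by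
    have : ((n : ℤ) + 2) * (((n + 1).choose j : ℕ) : ℤ)
      = ((n : ℤ) + 2 - j) * (((n + 2).choose j : ℕ) : ℤ) := by linear_combination h2
    calc _ = (((n : ℤ) + 2) * (((n + 1).choose j : ℕ) : ℤ)) ^ 2 := by ring
      _ = _ := by rw [this]; ring
  calc ((n : ℤ) + 1) ^ 2 * ((n : ℤ) + 2) ^ 2 *
        ((((n + 1).choose j : ℕ) : ℤ) ^ 2 * ((2 * j).choose (n + 1) : ℕ) * ((n + 1 + j).choose j : ℕ))
      = (((n : ℤ) + 2) ^ 2 * (((n + 1).choose j : ℕ) : ℤ) ^ 2) *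
        (((n : ℤ) + 1) * ((2 * j).choose (n + 1) : ℕ)) * (((n : ℤ) + 1) * ((n + 1 + j).choose j : ℕ)) := by
        ring
    _ = _ := by rw [h5, h3, h4]; ring

lemma F2 (n j : ℕ) : ((n : ℤ) + 1) ^ 2 * ((n : ℤ) + 2) ^ 2 * F (n + 2) j
    = (2 * j - n) * (2 * j - n - 1) * ((n : ℤ) + 1 + j) * ((n : ℤ) + 2 + j) * Hh n j := by
  have h3 := ch1 (2 * j) n
  have h3' := ch1 (2 * j) (n + 1)
  push_cast at h3 h3'
  have h4 := chx n j
  have h4' := chx (n + 1) j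
  push_cast at h4'
  unfold F Hh
  have e1 : (((2 * j).choose (n + 1 + 1) : ℕ) : ℤ) = (((2 * j).choose (n + 2) : ℕ) : ℤ) := rfl
  rw [e1] at h3'
  have e2 : (((n + 1 + 1 + j).choose j : ℕ) : ℤ) = (((n + 2 + j).choose j : ℕ) : ℤ) := rfl
  rw [e2] at h4'
  have h5 : ((n : ℤ) + 1) * ((n : ℤ) + 2) * ((2 * j).choose (n + 2) : ℕ)
      = (2 * j - n) * (2 * j - n - 1) * ((2 * j).choose n : ℕ) := by
    linear_combination ((n : ℤ) + 1) * h3' + (2 * (j : ℤ) - n - 1) * h3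
  have h6 : ((n : ℤ) + 1) * ((n : ℤ) + 2) * ((n + 2 + j).choose j : ℕ)
      = ((n : ℤ) + 1 + j) * ((n : ℤ) + 2 + j) * ((n + j).choose j : ℕ) := by
    linear_combination ((n : ℤ) + 1) * h4' + ((n : ℤ) + 2 + j) * h4
  calc ((n : ℤ) + 1) ^ 2 * ((n : ℤ) + 2) ^ 2 *
        ((((n + 2).choose j : ℕ) : ℤ) ^ 2 * ((2 * j).choose (n + 2) : ℕ) * ((n + 2 + j).choose j : ℕ))
      = (((n + 2).choose j : ℕ) : ℤ) ^ 2 * (((n : ℤ) + 1) * ((n : ℤ) + 2) * ((2 * j).choose (n + 2) : ℕ))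
        * (((n : ℤ) + 1) * ((n : ℤ) + 2) * ((n + 2 + j).choose j : ℕ)) := by ring
    _ = _ := by rw [h5, h6]; ring

lemma G1 (n j : ℕ) : Gg n (j + 1)
    = 2 * (2 * j + 1) * ((n : ℤ) + j + 1) * ((n : ℤ) + 2 - j) ^ 2 * Ss n (j + 1) * Hh n j := by
  have h1 := ch1 (n + 2) j
  push_cast at h1
  have h2 := ch2 (2 * j) n
  have h2' := ch2 (2 * j + 1) n
  push_cast at h2 h2'
  have h3 := ch3 (n + j) j
  push_cast at h3
  unfold Gg Hh
  have e1 : (((2 * j + 1 + 1).choose n : ℕ) : ℤ) = (((2 * (j + 1)).choose n : ℕ) : ℤ) := rfl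
  rw [e1] at h2'
  have e2 : (((n + j + 1).choose (j + 1) : ℕ) : ℤ) = (((n + (j + 1)).choose (j + 1) : ℕ) : ℤ) := rfl
  rw [e2] at h3
  have h5 : (2 * ((j : ℤ) + 1) - n) * (2 * ((j : ℤ) + 1) - n - 1) * (((2 * (j + 1)).choose n : ℕ) : ℤ)
      = (2 * j + 2) * (2 * j + 1) * ((2 * j).choose n : ℕ) := by
    linear_combination -(2 * (j : ℤ) + 1 - n) * h2' - (2 * (j : ℤ) + 2) * h2
  push_cast
  calc ((j : ℤ) + 1) ^ 2 * (2 * ((j : ℤ) + 1) - n) * (2 * ((j : ℤ) + 1) - n - 1) * Ss n (j + 1) *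
        ((((n + 2).choose (j + 1) : ℕ) : ℤ) ^ 2 * ((2 * (j + 1)).choose n : ℕ) *
          ((n + (j + 1)).choose (j + 1) : ℕ))
      = (((j : ℤ) + 1) * (((n + 2).choose (j + 1) : ℕ) : ℤ)) ^ 2 *
        ((2 * ((j : ℤ) + 1) - n) * (2 * ((j : ℤ) + 1) - n - 1) * (((2 * (j + 1)).choose n : ℕ) : ℤ)) *
        Ss n (j + 1) * ((n + (j + 1)).choose (j + 1) : ℕ) := by ring
    _ = (((n : ℤ) + 2 - j) * (((n + 2).choose j : ℕ) : ℤ)) ^ 2 * (2 * (2 * j + 1) * ((2 * j).choose n : ℕ))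
        * Ss n (j + 1) * (((j : ℤ) + 1) * ((n + (j + 1)).choose (j + 1) : ℕ)) := by
        rw [h5, h1]; ring
    _ = _ := by rw [h3]; ring

lemma tele (n j : ℕ) :
    ((n : ℤ) + 1) ^ 2 * ((n : ℤ) + 2) ^ 2 *
      (((n : ℤ) + 2) ^ 3 * F (n + 2) j
        - (2 * n + 3) * (13 * n ^ 2 + 39 * n + 30) * F (n + 1) j
        - 3 * (n + 1) * (3 * n + 2) * (3 * n + 4) * F n j) = Gg n (j + 1) - Gg n j := by
  have h0 := F0 n j
  have h1 := F1 n j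
  have h2 := F2 n j
  rw [G1]
  unfold Gg
  have : ((n : ℤ) + 1) ^ 2 * ((n : ℤ) + 2) ^ 2 *
      (((n : ℤ) + 2) ^ 3 * F (n + 2) j
        - (2 * n + 3) * (13 * n ^ 2 + 39 * n + 30) * F (n + 1) j
        - 3 * (n + 1) * (3 * n + 2) * (3 * n + 4) * F n j)
      = ((n : ℤ) + 2) ^ 3 * (((n : ℤ) + 1) ^ 2 * ((n : ℤ) + 2) ^ 2 * F (n + 2) j)
        - (2 * n + 3) * (13 * n ^ 2 + 39 * n + 30) * (((n : ℤ) + 1) ^ 2 * ((n : ℤ) + 2) ^ 2 * F (n + 1) j)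
        - 3 * (n + 1) * (3 * n + 2) * (3 * n + 4) * (((n : ℤ) + 1) ^ 2 * ((n : ℤ) + 2) ^ 2 * F n j) := by
    ring
  rw [this, h0, h1, h2]
  unfold Ss
  ring

lemma TT_cast (n m : ℕ) (h : n + 1 ≤ m) : ((TT n : ℕ) : ℤ) = ∑ j ∈ Finset.range m, F n j := by
  rw [TT_ext n m h]
  unfold F
  push_cast
  rfl

theorem TT_rec (n : ℕ) :
    ((n : ℤ) + 2) ^ 3 * (TT (n + 2) : ℤ)
      = (2 * n + 3) * (13 * n ^ 2 + 39 * n + 30) * (TT (n + 1) : ℤ)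
        + 3 * (n + 1) * (3 * n + 2) * (3 * n + 4) * (TT n : ℤ) := by
  have key : ∑ j ∈ Finset.range (n + 3), (Gg n (j + 1) - Gg n j) = 0 := by
    rw [Finset.sum_range_sub]
    unfold Gg Hh
    rw [Nat.choose_eq_zero_of_lt (show n + 2 < n + 3 by omega)]
    simp
  have key2 : ((n : ℤ) + 1) ^ 2 * ((n : ℤ) + 2) ^ 2 *
      (((n : ℤ) + 2) ^ 3 * (TT (n + 2) : ℤ)
        - (2 * n + 3) * (13 * n ^ 2 + 39 * n + 30) * (TT (n + 1) : ℤ)
        - 3 * (n + 1) * (3 * n + 2) * (3 * n + 4) * (TT n : ℤ)) = 0 := by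
    rw [TT_cast (n + 2) (n + 3) (by omega), TT_cast (n + 1) (n + 3) (by omega),
      TT_cast n (n + 3) (by omega), ← key]
    simp only [Finset.mul_sum, ← Finset.sum_sub_distrib]
    apply Finset.sum_congr rfl
    intro j _
    rw [← tele n j]
  have hpos : ((n : ℤ) + 1) ^ 2 * ((n : ℤ) + 2) ^ 2 ≠ 0 := by positivity
  have := (mul_eq_zero.mp key2).resolve_left hpos
  linarith

lemma TT_zero : TT 0 = 1 := by decide
lemma TT_one : TT 1 = 4 := by decide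

end Pool.Agent.Lib.MP1f269e
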