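import Mathlib
import Pool.Agent.Lib.MP_1f269e_nt.A

set_option autoImplicit false

namespace Pool.Agent.Lib.MP1f269e

open Finset

/-- solution of the second order recurrence -/
noncomputable def tt : ℕ → ℚ
  | 0 => 1
  | 1 => 2
  | (n + 2) => ((26 * ((n : ℚ) + 1) ^ 2 + 13 * (n + 1) + 2) * tt (n + 1)
      + 3 * (3 * n + 2) * (3 * n + 1) * tt n) / ((n : ℚ) + 2) ^ 2

lemma tt_rec (n : ℕ) : ((n : ℚ) + 2) ^ 2 * tt (n + 2)
    = (26 * ((n : ℚ) + 1) ^ 2 + 13 * (n + 1) + 2) * tt (n + 1)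
      + 3 * (3 * n + 2) * (3 * n + 1) * tt n := by
  rw [tt]
  field_simp

/-- X d/dX on power series -/
noncomputable def Dp (f : PowerSeries ℚ) : PowerSeries ℚ := PowerSeries.X * PowerSeries.derivative ℚ f

lemma coeff_Dp (f : PowerSeries ℚ) (n : ℕ) :
    PowerSeries.coeff n (Dp f) = n * PowerSeries.coeff n f := by
  unfold Dp
  cases n with
  | zero => simp
  | succ n =>
    rw [PowerSeries.coeff_succ_X_mul, PowerSeries.coeff_derivative]
    push_cast
    ring

lemma Dp_mul (f g : PowerSeries ℚ) : Dp (f * g) = Dp f * g + f * Dp g := by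
  unfold Dp
  rw [Derivation.leibniz]
  simp only [smul_eq_mul]
  ring

lemma Dp_add (f g : PowerSeries ℚ) : Dp (f + g) = Dp f + Dp g := by
  unfold Dp
  rw [map_add, mul_add]

lemma Dp_X : Dp (PowerSeries.X) = PowerSeries.X := by
  unfold Dp
  simp [PowerSeries.derivative_X]

lemma Dp_C (a : ℚ) : Dp (PowerSeries.C a) = 0 := by
  ext n
  rw [coeff_Dp, PowerSeries.coeff_C]
  split_ifs with h
  · simp [h]
  · simp

noncomputable def th : PowerSeries ℚ := PowerSeries.mk tt

lemma th_eq : Dp (Dp th) = PowerSeries.X * (PowerSeries.C 26 * Dp (Dp th) + PowerSeries.C 13 * Dp th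
      + PowerSeries.C 2 * th)
    + PowerSeries.X * (PowerSeries.X * (PowerSeries.C 27 * Dp (Dp th) + PowerSeries.C 27 * Dp th
      + PowerSeries.C 6 * th)) := by
  ext n
  rw [coeff_Dp, coeff_Dp]
  rcases n with _ | _ | n
  · simp
  · rw [map_add, PowerSeries.coeff_succ_X_mul, PowerSeries.coeff_succ_X_mul, PowerSeries.coeff_zero_X_mul]
    simp only [map_add, PowerSeries.coeff_C_mul, coeff_Dp]
    simp [th, tt]
  · rw [map_add, PowerSeries.coeff_succ_X_mul, PowerSeries.coeff_succ_X_mul, PowerSeries.coeff_succ_X_mul]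
    simp only [map_add, PowerSeries.coeff_C_mul, coeff_Dp]
    simp only [th, PowerSeries.coeff_mk]
    have := tt_rec n
    push_cast
    linear_combination this

noncomputable def zz : PowerSeries ℚ := th * th

lemma zz_eq : Dp (Dp (Dp zz)) = PowerSeries.X * (PowerSeries.C 26 * Dp (Dp (Dp zz)) + PowerSeries.C 39 * Dp (Dp zz)
      + PowerSeries.C 21 * Dp zz + PowerSeries.C 4 * zz)
    + PowerSeries.X * (PowerSeries.X * (PowerSeries.C 27 * Dp (Dp (Dp zz)) + PowerSeries.C 81 * Dp (Dp zz)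
      + PowerSeries.C 78 * Dp zz + PowerSeries.C 24 * zz)) := by
  have h1 := th_eq
  have h2 := congrArg Dp h1
  simp only [Dp_mul, Dp_add, Dp_X, Dp_C, zero_mul, zero_add] at h2
  have c26 : (PowerSeries.C (26 : ℚ)) = (26 : PowerSeries ℚ) := map_ofNat PowerSeries.C 26
  have c13 : (PowerSeries.C (13 : ℚ)) = (13 : PowerSeries ℚ) := map_ofNat PowerSeries.C 13
  have c2 : (PowerSeries.C (2 : ℚ)) = (2 : PowerSeries ℚ) := map_ofNat PowerSeries.C 2
  have c27 : (PowerSeries.C (27 : ℚ)) = (27 : PowerSeries ℚ) := map_ofNat PowerSeries.C 27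
  have c6 : (PowerSeries.C (6 : ℚ)) = (6 : PowerSeries ℚ) := map_ofNat PowerSeries.C 6
  have c39 : (PowerSeries.C (39 : ℚ)) = (39 : PowerSeries ℚ) := map_ofNat PowerSeries.C 39
  have c21 : (PowerSeries.C (21 : ℚ)) = (21 : PowerSeries ℚ) := map_ofNat PowerSeries.C 21
  have c4 : (PowerSeries.C (4 : ℚ)) = (4 : PowerSeries ℚ) := map_ofNat PowerSeries.C 4
  have c81 : (PowerSeries.C (81 : ℚ)) = (81 : PowerSeries ℚ) := map_ofNat PowerSeries.C 81
  have c78 : (PowerSeries.C (78 : ℚ)) = (78 : PowerSeries ℚ) := map_ofNat PowerSeries.C 78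
  have c24 : (PowerSeries.C (24 : ℚ)) = (24 : PowerSeries ℚ) := map_ofNat PowerSeries.C 24
  rw [c26, c13, c2, c27, c6] at h1 h2
  rw [c26, c39, c21, c4, c27, c81, c78, c24]
  unfold zz
  simp only [Dp_mul, Dp_add]
  generalize Dp (Dp (Dp th)) = a3 at *
  generalize Dp (Dp th) = a2 at *
  generalize Dp th = a1 at *
  generalize th = a0 at *
  generalize (PowerSeries.X : PowerSeries ℚ) = x at *
  linear_combination (6 * a1) * h1 + (2 * a0) * h2

lemma zz_rec (n : ℕ) : ((n : ℚ) + 2) ^ 3 * PowerSeries.coeff (n + 2) zz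
    = (2 * n + 3) * (13 * n ^ 2 + 39 * n + 30) * PowerSeries.coeff (n + 1) zz
      + 3 * (n + 1) * (3 * n + 2) * (3 * n + 4) * PowerSeries.coeff n zz := by
  have h := congrArg (PowerSeries.coeff (n + 2)) zz_eq
  rw [map_add, PowerSeries.coeff_succ_X_mul, PowerSeries.coeff_succ_X_mul, PowerSeries.coeff_succ_X_mul] at h
  simp only [map_add, PowerSeries.coeff_C_mul, coeff_Dp] at h
  push_cast at h
  linear_combination h

lemma zz_coeff (n : ℕ) : PowerSeries.coeff n zz = ∑ j ∈ Finset.range (n + 1), tt j * tt (n - j) := by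
  unfold zz
  rw [PowerSeries.coeff_mul, Finset.Nat.sum_antidiagonal_eq_sum_range_succ_mk]
  simp [th]

lemma TT_recQ (n : ℕ) :
    ((n : ℚ) + 2) ^ 3 * (TT (n + 2) : ℚ)
      = (2 * n + 3) * (13 * n ^ 2 + 39 * n + 30) * (TT (n + 1) : ℚ)
        + 3 * (n + 1) * (3 * n + 2) * (3 * n + 4) * (TT n : ℚ) := by
  have := TT_rec n
  exact_mod_cast this

lemma zz_TT : ∀ n : ℕ, PowerSeries.coeff n zz = (TT n : ℚ) := by
  intro n
  induction n using Nat.strong_induction_on with
  | _ n ih =>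
    rcases n with _ | _ | n
    · rw [zz_coeff, TT_zero]; simp [tt]
    · rw [zz_coeff, TT_one]; simp [Finset.sum_range_succ, tt]; norm_num
    · have h1 := zz_rec n
      have h2 := TT_recQ n
      rw [ih (n + 1) (by omega), ih n (by omega), ← h2] at h1
      have : ((n : ℚ) + 2) ^ 3 ≠ 0 := by positivity
      exact mul_left_cancel₀ this h1

/-- the sequence of the problem is `tt` -/
theorem eq_tt (t : ℕ → ℚ) (h0 : t 0 = 1)
    (h : ∀ n : ℕ, ∑ j ∈ Finset.range (n + 1), t j * t (n - j) = (TT n : ℚ)) : t = tt := by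
  have e : PowerSeries.mk t * PowerSeries.mk t = th * th := by
    ext n
    rw [PowerSeries.coeff_mul, Finset.Nat.sum_antidiagonal_eq_sum_range_succ_mk]
    simp only [PowerSeries.coeff_mk]
    rw [h n, ← zz_TT n]
    rfl
  have e2 : (PowerSeries.mk t - th) * (PowerSeries.mk t + th) = 0 := by linear_combination e
  rcases mul_eq_zero.mp e2 with h3 | h3
  · have : PowerSeries.mk t = th := sub_eq_zero.mp h3
    funext n
    have := congrArg (PowerSeries.coeff n) this
    simpa [th] using this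
  · exfalso
    have := congrArg (PowerSeries.coeff 0) h3
    simp [th, h0, tt] at this

end Pool.Agent.Lib.MP1f269e
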