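import Mathlib
import Pool.Agent.Lib.MP_1f269e_nt.B

set_option autoImplicit false

namespace Pool.Agent.Lib.MP1f269e

open Finset

lemma alt_aux (a b : ℕ) :
    ((2 * a + b).choose (a + b)) ^ 2 * (2 * (a + b)).choose (2 * a + b) * ((2 * a + b) + (a + b)).choose (a + b)
    = ((2 * (a + b)).choose (a + b)) ^ 2 * ((2 * a + b) + (a + b)).choose (2 * (a + b)) * (a + b).choose a := by
  have h : ((((2 * a + b).choose (a + b)) ^ 2 * (2 * (a + b)).choose (2 * a + b) * ((2 * a + b) + (a + b)).choose (a + b) : ℕ) : ℚ)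
    = ((((2 * (a + b)).choose (a + b)) ^ 2 * ((2 * a + b) + (a + b)).choose (2 * (a + b)) * (a + b).choose a : ℕ) : ℚ) := by
    push_cast
    rw [Nat.cast_choose ℚ (show a + b ≤ 2 * a + b by omega),
      Nat.cast_choose ℚ (show 2 * a + b ≤ 2 * (a + b) by omega),
      Nat.cast_choose ℚ (show a + b ≤ (2 * a + b) + (a + b) by omega),
      Nat.cast_choose ℚ (show a + b ≤ 2 * (a + b) by omega),
      Nat.cast_choose ℚ (show 2 * (a + b) ≤ (2 * a + b) + (a + b) by omega),
      Nat.cast_choose ℚ (show a ≤ (a + b) by omega)]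
    have e1 : 2 * a + b - (a + b) = a := by omega
    have e2 : 2 * (a + b) - (2 * a + b) = b := by omega
    have e3 : 2 * a + b + (a + b) - (a + b) = 2 * a + b := by omega
    have e4 : 2 * (a + b) - (a + b) = a + b := by omega
    have e5 : 2 * a + b + (a + b) - 2 * (a + b) = a := by omega
    have e6 : a + b - a = b := by omega
    rw [e1, e2, e3, e4, e5, e6]
    have := Nat.factorial_ne_zero
    field_simp
  exact_mod_cast h

lemma alt (n j : ℕ) (h : j ≤ n) :
    (n.choose j) ^ 2 * (2 * j).choose n * (n + j).choose j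
      = ((2 * j).choose j) ^ 2 * (n + j).choose (2 * j) * j.choose (n - j) := by
  rcases le_or_gt n (2 * j) with h2 | h2
  · obtain ⟨a, rfl⟩ := Nat.exists_eq_add_of_le h
    obtain ⟨b, hb⟩ := Nat.exists_eq_add_of_le (show a ≤ j by omega)
    subst hb
    have := alt_aux a b
    have e : a + b + a = 2 * a + b := by ring
    rw [e]
    rw [show 2 * a + b - (a + b) = a by omega]
    exact this
  · rw [Nat.choose_eq_zero_of_lt h2, Nat.choose_eq_zero_of_lt (show j < n - j by omega)]
    simp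

lemma cb (j : ℕ) : (2 * (j + 1)).choose (j + 1) = 2 * (2 * j + 1).choose j := by
  have h1 : (2 * (j + 1)).choose (j + 1) = (2 * j + 1).choose j + (2 * j + 1).choose (j + 1) := by
    rw [show 2 * (j + 1) = (2 * j + 1) + 1 by ring, Nat.choose_succ_succ']
  rw [h1, Nat.choose_symm_half]
  ring

/-- T(n)/4 for n ≥ 1 -/
lemma TT_four (n : ℕ) (hn : 1 ≤ n) :
    TT n = 4 * ∑ j ∈ Finset.range n,
      ((2 * j + 1).choose j) ^ 2 * (n + j + 1).choose (2 * j + 2) * (j + 1).choose (n - (j + 1)) := by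
  unfold TT
  rw [Finset.sum_range_succ', Finset.mul_sum]
  have h0 : (n.choose 0) ^ 2 * (2 * 0).choose n * (n + 0).choose 0 = 0 := by
    rw [Nat.choose_eq_zero_of_lt (show 2 * 0 < n by omega)]
    simp
  rw [h0, add_zero]
  apply Finset.sum_congr rfl
  intro j hj
  rw [Finset.mem_range] at hj
  rw [alt n (j + 1) (by omega), cb]
  have e1 : n + (j + 1) = n + j + 1 := by ring
  have e2 : 2 * (j + 1) = 2 * j + 2 := by ring
  rw [e1, e2]
  ring

def bb (n j : ℕ) : ℕ := (2 * j + 1).choose j * (n + j + 1).choose (2 * j + 2) * (j + 1).choose (n - (j + 1))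

lemma luc2 (n k : ℕ) : ((n.choose k : ℕ) : ZMod 2)
    = (((n % 2).choose (k % 2) : ℕ) : ZMod 2) * (((n / 2).choose (k / 2) : ℕ) : ZMod 2) := by
  have h : n.choose k ≡ (n % 2).choose (k % 2) * (n / 2).choose (k / 2) [MOD 2] :=
    haveI : Fact (Nat.Prime 2) := ⟨Nat.prime_two⟩
    Choose.choose_modEq_choose_mod_mul_choose_div_nat
  have := (ZMod.natCast_eq_natCast_iff _ _ _).mpr h
  rw [this]
  push_cast
  rfl

lemma bb_even (n i : ℕ) (hn : 3 ≤ n) : ((bb n (2 * i) : ℕ) : ZMod 2) = 0 := by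
  rcases Nat.eq_zero_or_pos i with rfl | hi
  · unfold bb
    rw [Nat.choose_eq_zero_of_lt (show 2 * 0 + 1 < n - (2 * 0 + 1) by omega)]
    simp
  · unfold bb
    push_cast
    rw [luc2 (2 * (2 * i) + 1) (2 * i)]
    rw [show (2 * (2 * i) + 1) % 2 = 1 by omega, show (2 * i) % 2 = 0 by omega,
      show (2 * (2 * i) + 1) / 2 = 2 * i by omega, show (2 * i) / 2 = i by omega]
    have : (((2 * i).choose i : ℕ) : ZMod 2) = 0 := by
      rw [ZMod.natCast_eq_zero_iff]
      exact Nat.two_dvd_centralBinom_of_one_le hi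
    rw [this]
    simp

lemma bb_odd_odd (m i : ℕ) (h : 2 * i + 1 < 2 * m + 1) : ((bb (2 * m + 1) (2 * i + 1) : ℕ) : ZMod 2) = 0 := by
  unfold bb
  rw [Nat.cast_mul, luc2 (2 * i + 1 + 1)]
  rw [show (2 * i + 1 + 1) % 2 = 0 by omega, show (2 * m + 1 - (2 * i + 1 + 1)) % 2 = 1 by omega]
  simp

lemma bb_even_odd (m i : ℕ) (h : i < m) : ((bb (2 * m) (2 * i + 1) : ℕ) : ZMod 2) = (bb m i : ℕ) := by
  unfold bb
  push_cast
  rw [luc2 (2 * (2 * i + 1) + 1) (2 * i + 1), luc2 (2 * m + (2 * i + 1) + 1),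
    luc2 (2 * i + 1 + 1)]
  rw [show (2 * (2 * i + 1) + 1) % 2 = 1 by omega, show (2 * i + 1) % 2 = 1 by omega,
    show (2 * (2 * i + 1) + 1) / 2 = 2 * i + 1 by omega, show (2 * i + 1) / 2 = i by omega,
    show (2 * m + (2 * i + 1) + 1) % 2 = 0 by omega, show (2 * (2 * i + 1) + 2) % 2 = 0 by omega,
    show (2 * m + (2 * i + 1) + 1) / 2 = m + i + 1 by omega,
    show (2 * (2 * i + 1) + 2) / 2 = 2 * i + 2 by omega,
    show (2 * i + 1 + 1) % 2 = 0 by omega, show (2 * m - (2 * i + 1 + 1)) % 2 = 0 by omega,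
    show (2 * i + 1 + 1) / 2 = i + 1 by omega,
    show (2 * m - (2 * i + 1 + 1)) / 2 = m - (i + 1) by omega]
  simp

lemma sum_two (f : ℕ → ZMod 2) (m : ℕ) :
    ∑ j ∈ Finset.range (2 * m), f j = ∑ i ∈ Finset.range m, (f (2 * i) + f (2 * i + 1)) := by
  induction m with
  | zero => simp
  | succ m ih =>
    rw [Finset.sum_range_succ, ← ih, show 2 * (m + 1) = 2 * m + 1 + 1 by ring,
      Finset.sum_range_succ, Finset.sum_range_succ]
    ring

lemma beta_zero : ∀ n : ℕ, 2 ≤ n → ((∑ j ∈ Finset.range n, bb n j : ℕ) : ZMod 2) = 0 := by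
  intro n
  induction n using Nat.strong_induction_on with
  | _ n ih =>
    intro hn
    push_cast
    rcases Nat.even_or_odd' n with ⟨m, rfl | rfl⟩
    · rcases Nat.lt_or_ge m 2 with hm | hm
      · have : m = 1 := by omega
        subst this
        decide
      · rw [sum_two]
        have : ∀ i ∈ Finset.range m, (((bb (2 * m) (2 * i) : ℕ) : ZMod 2) + ((bb (2 * m) (2 * i + 1) : ℕ) : ZMod 2))
            = ((bb m i : ℕ) : ZMod 2) := by
          intro i hi
          rw [Finset.mem_range] at hi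
          rw [bb_even _ _ (by omega), bb_even_odd _ _ hi, zero_add]
        rw [Finset.sum_congr rfl this]
        have := ih m (by omega) hm
        push_cast at this
        exact this
    · rw [Finset.sum_range_succ, sum_two]
      have : ∀ i ∈ Finset.range m, (((bb (2 * m + 1) (2 * i) : ℕ) : ZMod 2)
          + ((bb (2 * m + 1) (2 * i + 1) : ℕ) : ZMod 2)) = 0 := by
        intro i hi
        rw [Finset.mem_range] at hi
        rw [bb_even _ _ (by omega), bb_odd_odd _ _ (by omega), zero_add]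
      rw [Finset.sum_congr rfl this, bb_even _ _ (by omega)]
      simp

theorem TT_eight (n : ℕ) (hn : 2 ≤ n) : 8 ∣ TT n := by
  rw [TT_four n (by omega)]
  have : 2 ∣ ∑ j ∈ Finset.range n,
      ((2 * j + 1).choose j) ^ 2 * (n + j + 1).choose (2 * j + 2) * (j + 1).choose (n - (j + 1)) := by
    rw [← ZMod.natCast_eq_zero_iff, ← beta_zero n hn]
    push_cast
    apply Finset.sum_congr rfl
    intro j _
    unfold bb
    push_cast
    have hsq : ∀ x : ZMod 2, x ^ 2 = x := by decide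
    rw [hsq]
  obtain ⟨c, hc⟩ := this
  rw [hc]
  exact ⟨c, by ring⟩

theorem TT_four_dvd (n : ℕ) (hn : 1 ≤ n) : 4 ∣ TT n := by
  rw [TT_four n hn]
  exact ⟨_, rfl⟩

lemma tt_conv (n : ℕ) : ∑ j ∈ Finset.range (n + 1), tt j * tt (n - j) = (TT n : ℚ) := by
  rw [← zz_coeff, zz_TT]

lemma tt_int : ∀ n : ℕ, ∃ a : ℤ, tt n = a ∧ (1 ≤ n → 2 ∣ a) := by
  intro n
  induction n using Nat.strong_induction_on with
  | _ n ih =>
    rcases n with _ | m
    · exact ⟨1, by simp [tt], by omega⟩
    · have h := tt_conv (m + 1)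
      rw [Finset.sum_range_succ, Finset.sum_range_succ'] at h
      choose! f hf using ih
      have hsum : ∑ k ∈ Finset.range m, tt (k + 1) * tt (m + 1 - (k + 1))
          = ((∑ k ∈ Finset.range m, f (k + 1) * f (m + 1 - (k + 1)) : ℤ) : ℚ) := by
        push_cast
        apply Finset.sum_congr rfl
        intro k hk
        rw [Finset.mem_range] at hk
        have e : m + 1 - (k + 1) = m - k := by omega
        rw [e] at *
        rw [(hf (k + 1) (by omega)).1, (hf (m - k) (by omega)).1]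
      have hdvd : (4 : ℤ) ∣ ∑ k ∈ Finset.range m, f (k + 1) * f (m + 1 - (k + 1)) := by
        apply Finset.dvd_sum
        intro k hk
        rw [Finset.mem_range] at hk
        have h1 := (hf (k + 1) (by omega)).2 (by omega)
        have h2 := (hf (m + 1 - (k + 1)) (by omega)).2 (by omega)
        exact mul_dvd_mul h1 h2
      obtain ⟨c, hc⟩ := hdvd
      obtain ⟨d, hd⟩ := TT_four_dvd (m + 1) (by omega)
      rw [hsum, hc, hd] at h
      have ht0 : tt 0 = 1 := by simp [tt]
      simp only [Nat.sub_zero, Nat.sub_self, ht0] at h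
      refine ⟨2 * (d - c), ?_, fun _ => ⟨d - c, rfl⟩⟩
      push_cast at h ⊢
      linarith

/-- integer version -/
noncomputable def tz (n : ℕ) : ℤ := (tt_int n).choose

lemma tz_cast (n : ℕ) : ((tz n : ℤ) : ℚ) = tt n := ((tt_int n).choose_spec.1).symm

lemma tz_even (n : ℕ) (h : 1 ≤ n) : 2 ∣ tz n := (tt_int n).choose_spec.2 h

lemma tz_zero : tz 0 = 1 := by
  have := tz_cast 0
  rw [show tt 0 = 1 by simp [tt]] at this
  exact_mod_cast this

lemma tz_one : tz 1 = 2 := by
  have := tz_cast 1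
  rw [show tt 1 = 2 by simp [tt]] at this
  exact_mod_cast this

lemma tz_conv (n : ℕ) : ∑ j ∈ Finset.range (n + 1), tz j * tz (n - j) = (TT n : ℤ) := by
  have := tt_conv n
  simp only [← tz_cast] at this
  exact_mod_cast this

lemma tz_rec (n : ℕ) : ((n : ℤ) + 2) ^ 2 * tz (n + 2)
    = (26 * ((n : ℤ) + 1) ^ 2 + 13 * (n + 1) + 2) * tz (n + 1)
      + 3 * (3 * n + 2) * (3 * n + 1) * tz n := by
  have := tt_rec n
  simp only [← tz_cast] at this
  exact_mod_cast this

/-- the prime 2 -/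
theorem case_two (m : ℕ) (hm : 1 ≤ m) : (4 : ℤ) ∣ tz (2 * m) - tz m := by
  obtain ⟨k, rfl⟩ := Nat.exists_eq_add_of_le hm
  have h := tz_conv (2 * (1 + k))
  rw [show 2 * (1 + k) = 2 * k + 1 + 1 by ring] at *
  rw [Finset.sum_range_succ, Finset.sum_range_succ'] at h
  simp only [Nat.sub_zero, Nat.sub_self, tz_zero] at h
  have hb : ∀ n, ∃ b : ℤ, 1 ≤ n → tz n = 2 * b := by
    intro n
    by_cases hn : 1 ≤ n
    · obtain ⟨b, hb⟩ := tz_even n hn
      exact ⟨b, fun _ => hb⟩
    · exact ⟨0, fun h => absurd h hn⟩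
  choose b hb using hb
  have hs : ∑ x ∈ Finset.range (2 * k + 1), tz (x + 1) * tz (2 * k + 1 + 1 - (x + 1))
      = 4 * ∑ x ∈ Finset.range (2 * k + 1), b (x + 1) * b (2 * k + 1 - x) := by
    rw [Finset.mul_sum]
    apply Finset.sum_congr rfl
    intro x hx
    rw [Finset.mem_range] at hx
    rw [hb (x + 1) (by omega), hb (2 * k + 1 + 1 - (x + 1)) (by omega),
      show 2 * k + 1 + 1 - (x + 1) = 2 * k + 1 - x by omega]
    ring
  have hs2 : ∑ x ∈ Finset.range (2 * k + 1), b (x + 1) * b (2 * k + 1 - x)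
      = 2 * ∑ x ∈ Finset.range k, b (x + 1) * b (2 * k + 1 - x) + b (k + 1) * b (k + 1) := by
    rw [show 2 * k + 1 = (k + 1) + k by ring, Finset.sum_range_add, Finset.sum_range_succ]
    have : ∑ x ∈ Finset.range k, b (k + 1 + x + 1) * b (k + 1 + k - (k + 1 + x))
        = ∑ x ∈ Finset.range k, b (x + 1) * b (k + 1 + k - x) := by
      rw [← Finset.sum_range_reflect]
      apply Finset.sum_congr rfl
      intro x hx
      rw [Finset.mem_range] at hx
      rw [show k + 1 + (k - 1 - x) + 1 = k + 1 + k - x by omega,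
        show k + 1 + k - (k + 1 + (k - 1 - x)) = x + 1 by omega]
      ring
    rw [this, show k + 1 + k - k = k + 1 by omega]
    ring
  obtain ⟨c, hc⟩ := TT_eight (2 * k + 1 + 1) (by omega)
  rw [hs, hs2, hc, hb (2 * k + 1 + 1) (by omega)] at h
  rw [hb (2 * k + 1 + 1) (by omega), hb (1 + k) (by omega), show 1 + k = k + 1 by ring]
  have h3 : (2 : ℤ) ∣ b (2 * k + 1 + 1) + b (k + 1) * b (k + 1) := by
    push_cast at h
    refine ⟨(c : ℤ) - ∑ x ∈ Finset.range k, b (x + 1) * b (2 * k + 1 - x), ?_⟩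
    linarith
  have h4 : (2 : ℤ) ∣ b (k + 1) * b (k + 1) + b (k + 1) := by
    have := Int.even_mul_succ_self (b (k + 1))
    have h5 : b (k + 1) * (b (k + 1) + 1) = b (k + 1) * b (k + 1) + b (k + 1) := by ring
    rw [h5] at this
    exact this.two_dvd
  have h5 : (2 : ℤ) ∣ b (2 * k + 1 + 1) - b (k + 1) := by
    have := dvd_sub h3 h4
    have e : b (2 * k + 1 + 1) + b (k + 1) * b (k + 1) - (b (k + 1) * b (k + 1) + b (k + 1))
      = b (2 * k + 1 + 1) - b (k + 1) := by ring
    rwa [e] at this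
  obtain ⟨d, hd⟩ := h5
  exact ⟨d, by linear_combination 2 * hd⟩

end Pool.Agent.Lib.MP1f269e
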