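import Mathlib
import Pool.Agent.Lib.MP_1f269e_nt.C

set_option autoImplicit false

namespace Pool.Agent.Lib.MP1f269e

open Finset

lemma dvd_choose_pmul (p a k : ℕ) (hp : p.Prime) (hk : ¬ p ∣ k) : p ∣ (p * a).choose k := by
  rcases k with _ | k
  · exact absurd (dvd_zero p) hk
  rcases Nat.eq_zero_or_pos a with rfl | ha
  · simp
  · have hpos : 0 < p * a := Nat.mul_pos hp.pos ha
    obtain ⟨m, hm⟩ := Nat.exists_eq_succ_of_ne_zero hpos.ne'
    have h := Nat.add_one_mul_choose_eq m k
    rw [← Nat.succ_eq_add_one m, ← hm] at h
    have h2 : p ∣ (p * a).choose (k + 1) * (k + 1) := by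
      rw [← h]
      exact Dvd.dvd.mul_right (Dvd.intro _ rfl) _
    rcases (Nat.Prime.dvd_mul hp).mp h2 with h3 | h3
    · exact h3
    · exact absurd h3 hk

lemma babbage (p : ℕ) (hp : p.Prime) : ∀ a b : ℕ,
    (((p * a).choose (p * b) : ℕ) : ZMod (p ^ 2)) = ((a.choose b : ℕ) : ZMod (p ^ 2)) := by
  intro a
  induction a with
  | zero =>
    intro b
    rcases b with _ | b
    · simp
    · rw [Nat.mul_zero, Nat.choose_eq_zero_of_lt (show 0 < p * (b + 1) from Nat.mul_pos hp.pos (by omega)),
        Nat.choose_eq_zero_of_lt (show 0 < b + 1 by omega)]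
  | succ a ih =>
    intro b
    rcases b with _ | b
    · simp
    · have h1 : (p * (a + 1)).choose (p * (b + 1))
          = ∑ i ∈ Finset.range (p * (b + 1) + 1), p.choose i * (p * a).choose (p * (b + 1) - i) := by
        rw [show p * (a + 1) = p + p * a by ring, Nat.add_choose_eq,
          Finset.Nat.sum_antidiagonal_eq_sum_range_succ_mk]
      have h2 : ∑ i ∈ Finset.range (p * (b + 1) + 1), p.choose i * (p * a).choose (p * (b + 1) - i)
          = ∑ i ∈ Finset.range (p + 1), p.choose i * (p * a).choose (p * (b + 1) - i) := by
        symm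
        apply Finset.sum_subset
        · intro x hx
          rw [Finset.mem_range] at *
          have : p * (b + 1) = p * b + p := by ring
          omega
        · intro x _ hx
          rw [Finset.mem_range, not_lt] at hx
          rw [Nat.choose_eq_zero_of_lt (by omega), Nat.zero_mul]
      obtain ⟨q, hq⟩ : ∃ q, p = q + 1 := ⟨p - 1, by have := hp.pos; omega⟩
      rw [h1, h2, Finset.sum_range_succ]
      push_cast
      have h3 : ∑ i ∈ Finset.range p, ((p.choose i : ℕ) : ZMod (p ^ 2)) *
          (((p * a).choose (p * (b + 1) - i) : ℕ) : ZMod (p ^ 2))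
          = (((p * a).choose (p * (b + 1)) : ℕ) : ZMod (p ^ 2)) := by
        have h4 : ∑ i ∈ Finset.range (q + 1), ((p.choose i : ℕ) : ZMod (p ^ 2)) *
          (((p * a).choose (p * (b + 1) - i) : ℕ) : ZMod (p ^ 2))
          = (((p * a).choose (p * (b + 1)) : ℕ) : ZMod (p ^ 2)) := by
          rw [Finset.sum_range_succ']
          rw [Finset.sum_eq_zero]
          · simp
          · intro i hi
            rw [Finset.mem_range] at hi
            have d1 : p ∣ p.choose (i + 1) := hp.dvd_choose_self (by omega) (by omega)
            have d2 : p ∣ (p * a).choose (p * (b + 1) - (i + 1)) := by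
              apply dvd_choose_pmul p a _ hp
              intro hd
              have h5 : p ∣ p * (b + 1) := Dvd.intro _ rfl
              have h6 : i + 1 ≤ p * (b + 1) := by
                have : p * (b + 1) = p * b + p := by ring
                omega
              have h7 := (Nat.dvd_sub_iff_right h6 h5).mp hd
              have := Nat.le_of_dvd (by omega) h7
              omega
            have d3 : p ^ 2 ∣ p.choose (i + 1) * (p * a).choose (p * (b + 1) - (i + 1)) := by
              rw [pow_two]
              exact mul_dvd_mul d1 d2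
            have := (ZMod.natCast_eq_zero_iff _ _).mpr d3
            rw [Nat.cast_mul] at this
            exact this
        rw [← hq] at h4
        exact h4
      rw [h3, ih (b + 1)]
      rw [Nat.choose_self, show p * (b + 1) - p = p * b by
        rw [show p * (b + 1) = p * b + p by ring]; omega, ih b]
      rw [Nat.choose_succ_succ']
      push_cast
      ring

lemma sum_pmul {R : Type*} [AddCommMonoid R] (p : ℕ) (hp : 0 < p) (f : ℕ → R) (n : ℕ)
    (hf : ∀ J, J < p * n + 1 → ¬ p ∣ J → f J = 0) :
    ∑ J ∈ Finset.range (p * n + 1), f J = ∑ j ∈ Finset.range (n + 1), f (p * j) := by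
  induction n with
  | zero => simp
  | succ n ih =>
    obtain ⟨q, hq⟩ : ∃ q, p = q + 1 := ⟨p - 1, by omega⟩
    have e : p * (n + 1) + 1 = (p * n + 1) + p := by ring
    rw [e, Finset.sum_range_add, ih, Finset.sum_range_succ _ (n + 1)]
    · congr 1
      have h2 : ∑ x ∈ Finset.range (q + 1), f (p * n + 1 + x) = f (p * (n + 1)) := by
        rw [Finset.sum_range_succ, Finset.sum_eq_zero, zero_add]
        · congr 1
          rw [Nat.mul_add]
          omega
        · intro x hx
          rw [Finset.mem_range] at hx
          apply hf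
          · rw [e]; omega
          · intro hd
            have h3 : p ∣ 1 + x := by
              rw [Nat.add_assoc] at hd
              exact (Nat.dvd_add_right (Dvd.intro _ rfl)).mp hd
            have := Nat.le_of_dvd (by omega) h3
            omega
      rw [← hq] at h2
      exact h2
    · intro J hJ hd
      apply hf J _ hd
      rw [e]
      omega

theorem TT_pmul (p : ℕ) (hp : p.Prime) (n : ℕ) :
    ((TT (p * n) : ℕ) : ZMod (p ^ 2)) = ((TT n : ℕ) : ZMod (p ^ 2)) := by
  unfold TT
  push_cast
  rw [sum_pmul p hp.pos]
  · apply Finset.sum_congr rfl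
    intro j _
    rw [babbage p hp, show 2 * (p * j) = p * (2 * j) by ring, babbage p hp,
      show p * n + p * j = p * (n + j) by ring, babbage p hp]
  · intro J _ hd
    have d1 := dvd_choose_pmul p n J hp hd
    have d2 : p ^ 2 ∣ ((p * n).choose J) ^ 2 := pow_dvd_pow_of_dvd d1 2
    have := (ZMod.natCast_eq_zero_iff _ _).mpr d2
    rw [Nat.cast_pow] at this
    rw [this]
    ring

/-- uniqueness of square roots of sequences -/
lemma conv_unique {R : Type*} [CommRing R] (h2 : ∀ x : R, 2 * x = 0 → x = 0) (b c : ℕ → R)
    (hb : b 0 = 1) (hc : c 0 = 1)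
    (h : ∀ n, ∑ j ∈ Finset.range (n + 1), b j * b (n - j) = ∑ j ∈ Finset.range (n + 1), c j * c (n - j)) :
    ∀ n, b n = c n := by
  intro n
  induction n using Nat.strong_induction_on with
  | _ n ih =>
    rcases n with _ | m
    · rw [hb, hc]
    · have hm := h (m + 1)
      rw [Finset.sum_range_succ, Finset.sum_range_succ', Finset.sum_range_succ, Finset.sum_range_succ'] at hm
      have hs : ∑ k ∈ Finset.range m, b (k + 1) * b (m + 1 - (k + 1))
          = ∑ k ∈ Finset.range m, c (k + 1) * c (m + 1 - (k + 1)) := by
        apply Finset.sum_congr rfl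
        intro k hk
        rw [Finset.mem_range] at hk
        have e : m + 1 - (k + 1) = m - k := by omega
        rw [e, ih (k + 1) (by omega), ih (m - k) (by omega)]
      rw [hs] at hm
      simp only [Nat.sub_zero, Nat.sub_self, hb, hc] at hm
      have := h2 (b (m + 1) - c (m + 1)) (by linear_combination hm)
      exact sub_eq_zero.mp this

end Pool.Agent.Lib.MP1f269e
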