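import Mathlib
import Pool.Agent.Lib.MP_1f269e_nt.D

set_option autoImplicit false

namespace Pool.Agent.Lib.MP1f269e

open Finset

section modp

variable (p : ℕ) [Fact p.Prime]

lemma cast_ne (p : ℕ) [Fact p.Prime] (k : ℕ) (h0 : 0 < k) (h1 : k < p) : ((k : ℕ) : ZMod p) ≠ 0 := by
  intro h
  rw [ZMod.natCast_eq_zero_iff] at h
  have := Nat.le_of_dvd h0 h
  omega

lemma a_rec (n : ℕ) : ((n : ZMod p) + 2) ^ 2 * ((tz (n + 2) : ℤ) : ZMod p)
    = (26 * ((n : ZMod p) + 1) ^ 2 + 13 * (n + 1) + 2) * ((tz (n + 1) : ℤ) : ZMod p)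
      + 3 * (3 * n + 2) * (3 * n + 1) * ((tz n : ℤ) : ZMod p) := by
  have := congrArg (fun x : ℤ => (x : ZMod p)) (tz_rec n)
  push_cast at this
  exact this

lemma cast_M (M : ℕ) (hM : p = 3 * M + 1 ∨ p = 3 * M + 2) :
    (3 * (M : ZMod p) + 2) * (3 * (M : ZMod p) + 1) = 0 := by
  have hp0 : ((p : ℕ) : ZMod p) = 0 := ZMod.natCast_self p
  rcases hM with h4 | h4
  · have h5 := congrArg (fun x : ℕ => (x : ZMod p)) h4
    push_cast at h5
    rw [hp0] at h5
    rw [← h5]; ring
  · have h5 := congrArg (fun x : ℕ => (x : ZMod p)) h4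
    push_cast at h5
    rw [hp0] at h5
    rw [← h5]; ring

/-- vanishing after the first block third -/
lemma a_tail (M : ℕ) (hM : p = 3 * M + 1 ∨ p = 3 * M + 2) (h1 : ((tz (M + 1) : ℤ) : ZMod p) = 0) :
    ∀ k, M < k → k < p → ((tz k : ℤ) : ZMod p) = 0 := by
  intro k
  induction k using Nat.strong_induction_on with
  | _ k ih =>
    intro hk hkp
    rcases Nat.lt_or_ge k (M + 2) with h | h
    · have : k = M + 1 := by omega
      rw [this]; exact h1
    · obtain ⟨n, rfl⟩ := Nat.exists_eq_add_of_le' (show 2 ≤ k by omega)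
      have hr := a_rec p n
      have e1 : ((tz (n + 1) : ℤ) : ZMod p) = 0 := ih (n + 1) (by omega) (by omega) (by omega)
      have e2 : 3 * (3 * (n : ZMod p) + 2) * (3 * n + 1) * ((tz n : ℤ) : ZMod p) = 0 := by
        rcases Nat.lt_or_ge M n with h3 | h3
        · rw [ih n (by omega) (by omega) (by omega)]; ring
        · have : n = M := by omega
          subst this
          have := cast_M p n hM
          linear_combination 3 * ((tz n : ℤ) : ZMod p) * this
      rw [e1, e2, mul_zero, add_zero] at hr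
      have hne : ((n : ZMod p) + 2) ^ 2 ≠ 0 := by
        have := cast_ne p (n + 2) (by omega) hkp
        push_cast at this
        exact pow_ne_zero 2 this
      exact (mul_eq_zero.mp hr).resolve_left hne

lemma a_block (hp5 : 5 ≤ p) (M : ℕ) (hM : p = 3 * M + 1 ∨ p = 3 * M + 2)
    (ht : ∀ k, M < k → k < p → ((tz k : ℤ) : ZMod p) = 0) :
    ∀ n k, k < p → ((tz (p * n + k) : ℤ) : ZMod p) = ((tz k : ℤ) : ZMod p) * ((tz (p * n) : ℤ) : ZMod p) := by
  intro n
  induction n with
  | zero =>
    intro k _
    rw [Nat.mul_zero, Nat.zero_add, tz_zero]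
    simp
  | succ n ihn =>
    intro k
    have hp0 : ((p : ℕ) : ZMod p) = 0 := ZMod.natCast_self p
    induction k using Nat.strong_induction_on with
    | _ k ihk =>
      intro hk
      rcases k with _ | _ | k
      · rw [Nat.add_zero, tz_zero]; simp
      · obtain ⟨m, hm⟩ : ∃ m, p * (n + 1) = m + 1 := ⟨p * (n + 1) - 1, by
          have : p * (n + 1) = p * n + p := by ring
          omega⟩
        have hr := a_rec p m
        have hm0 : ((m : ℕ) : ZMod p) + 1 = 0 := by
          have := congrArg (fun x : ℕ => (x : ZMod p)) hm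
          push_cast at this
          rw [hp0] at this
          rw [← this]; ring
        have hm1 : ((m : ℕ) : ZMod p) = -1 := by linear_combination hm0
        have e1 : ((tz m : ℤ) : ZMod p) = 0 := by
          have : m = p * n + (p - 1) := by
            have : p * (n + 1) = p * n + p := by ring
            omega
          rw [this, ihn (p - 1) (by omega), ht (p - 1) (by omega) (by omega)]
          ring
        rw [e1, hm1] at hr
        rw [hm]
        rw [zero_add, tz_one]
        push_cast
        linear_combination hr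
      · have hr := a_rec p (p * (n + 1) + k)
        have e0 : (((p * (n + 1) + k : ℕ)) : ZMod p) = (k : ZMod p) := by
          push_cast
          rw [hp0]; ring
        rw [e0] at hr
        have i1 := ihk (k + 1) (by omega) (by omega)
        have i0 := ihk k (by omega) (by omega)
        rw [show p * (n + 1) + k + 1 = p * (n + 1) + (k + 1) by ring, i1, i0] at hr
        have hr2 := a_rec p k
        have hne : ((k : ZMod p) + 2) ^ 2 ≠ 0 := by
          have := cast_ne p (k + 2) (by omega) hk
          push_cast at this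
          exact pow_ne_zero 2 this
        apply mul_left_cancel₀ hne
        rw [show p * (n + 1) + (k + 1 + 1) = p * (n + 1) + k + 2 by ring]
        rw [show k + 1 + 1 = k + 2 by ring]
        linear_combination hr - ((tz (p * (n + 1)) : ℤ) : ZMod p) * hr2

lemma two_ne (hp5 : 5 ≤ p) : ∀ x : ZMod p, 2 * x = 0 → x = 0 := by
  intro x hx
  have : ((2 : ℕ) : ZMod p) ≠ 0 := cast_ne p 2 (by omega) (by omega)
  push_cast at this
  exact (mul_eq_zero.mp hx).resolve_left this

lemma exists_block (n J : ℕ) (hJ : J < p * n + 1) (hd : ¬ p ∣ J) :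
    ∃ m m' k, 0 < k ∧ k < p ∧ J = p * m + k ∧ p * n - J = p * m' + (p - k) ∧ m + m' + 1 = n := by
  have hp : 0 < p := (Fact.out : p.Prime).pos
  have h1 : J = p * (J / p) + J % p := (Nat.div_add_mod J p).symm
  have h2 : J % p < p := Nat.mod_lt _ hp
  have h3 : 0 < J % p := by
    rcases Nat.eq_zero_or_pos (J % p) with h | h
    · exact absurd (Nat.dvd_of_mod_eq_zero h) hd
    · exact h
  have h4 : J / p < n := by
    by_contra hcon
    rw [not_lt] at hcon
    have : p * n ≤ p * (J / p) := Nat.mul_le_mul_left p hcon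
    omega
  refine ⟨J / p, n - J / p - 1, J % p, h3, h2, h1, ?_, by omega⟩
  obtain ⟨d, hd2⟩ := Nat.exists_eq_add_of_lt h4
  rw [hd2]
  rw [show J / p + d + 1 - J / p - 1 = d by omega]
  have : p * (J / p + d + 1) = p * (J / p) + p * d + p := by ring
  omega

lemma a_mul (hp5 : 5 ≤ p) (M : ℕ) (hM : p = 3 * M + 1 ∨ p = 3 * M + 2)
    (ht : ∀ k, M < k → k < p → ((tz k : ℤ) : ZMod p) = 0) :
    ∀ n, ((tz (p * n) : ℤ) : ZMod p) = ((tz n : ℤ) : ZMod p) := by
  have hb := a_block p hp5 M hM ht
  apply conv_unique (two_ne p hp5) (fun n => ((tz (p * n) : ℤ) : ZMod p)) (fun n => ((tz n : ℤ) : ZMod p))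
  · simp [tz_zero]
  · simp [tz_zero]
  · intro n
    have h1 := congrArg (fun x : ℤ => (x : ZMod p)) (tz_conv n)
    have h2 := congrArg (fun x : ℤ => (x : ZMod p)) (tz_conv (p * n))
    push_cast at h1 h2
    have h3 : ((TT (p * n) : ℕ) : ZMod p) = ((TT n : ℕ) : ZMod p) := by
      have := TT_pmul p (Fact.out) n
      rw [ZMod.natCast_eq_natCast_iff] at this ⊢
      exact Nat.ModEq.of_dvd (Dvd.intro_left (p ^ 1) (by ring)) this
    rw [h3, ← h1, sum_pmul p (Fact.out : p.Prime).pos] at h2
    · rw [← h2]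
      apply Finset.sum_congr rfl
      intro j hj
      rw [Finset.mem_range] at hj
      rw [Nat.mul_sub]
    · intro J hJ hd
      obtain ⟨m, m', k, hk0, hk1, hJ1, hJ2, _⟩ := exists_block p n J hJ hd
      rw [hJ2, hJ1, hb m k hk1, hb m' (p - k) (by omega)]
      rcases Nat.lt_or_ge M k with h | h
      · rw [ht k h hk1]; ring
      · rw [ht (p - k) (by omega) (by omega)]; ring

end modp

end Pool.Agent.Lib.MP1f269e
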