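import Mathlib

set_option autoImplicit false

namespace Pool.Agent.Lib.MP1f269e

open Polynomial

section poly

variable {K : Type*} [Field K]

/-- X d/dX on polynomials -/
noncomputable def Dx (f : K[X]) : K[X] := X * derivative f

lemma coeff_Dx (f : K[X]) (n : ℕ) : (Dx f).coeff n = n * f.coeff n := by
  unfold Dx
  cases n with
  | zero => simp
  | succ n =>
    rw [coeff_X_mul, coeff_derivative]
    push_cast
    ring

lemma Dx_add (f g : K[X]) : Dx (f + g) = Dx f + Dx g := by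
  unfold Dx; rw [derivative_add]; ring

lemma Dx_sub (f g : K[X]) : Dx (f - g) = Dx f - Dx g := by
  unfold Dx; rw [derivative_sub]; ring

lemma Dx_mul (f g : K[X]) : Dx (f * g) = Dx f * g + f * Dx g := by
  unfold Dx; rw [derivative_mul]; ring

lemma Dx_C (a : K) : Dx (C a) = 0 := by
  unfold Dx; simp

lemma Dx_ofNat (n : ℕ) [n.AtLeastTwo] : Dx (OfNat.ofNat n : K[X]) = 0 := by
  unfold Dx; simp

lemma Dx_one : Dx (1 : K[X]) = 0 := by
  unfold Dx; simp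

lemma Dx_X : Dx (X : K[X]) = X := by
  unfold Dx; simp

lemma Dx_pow_succ (f : K[X]) (n : ℕ) : Dx (f ^ (n + 1)) = ((n : K[X]) + 1) * f ^ n * Dx f := by
  unfold Dx
  rw [derivative_pow_succ]
  simp only [map_add, map_natCast, map_one]
  ring

lemma mul_Dx_pow (f : K[X]) (n : ℕ) : f * Dx (f ^ n) = (n : K[X]) * f ^ n * Dx f := by
  cases n with
  | zero => simp [Dx_one]
  | succ n =>
    rw [Dx_pow_succ]
    push_cast
    ring

lemma Dx_X_pow (n : ℕ) : Dx ((X : K[X]) ^ n) = (n : K[X]) * X ^ n := by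
  cases n with
  | zero => simp [Dx_one]
  | succ n =>
    rw [Dx_pow_succ, Dx_X]
    push_cast
    ring

lemma Dx_natDegree (f : K[X]) : (Dx f).natDegree ≤ f.natDegree := by
  rw [natDegree_le_iff_coeff_eq_zero]
  intro N hN
  rw [coeff_Dx, coeff_eq_zero_of_natDegree_lt hN, mul_zero]

noncomputable def Lx (f : K[X]) : K[X] :=
  Dx (Dx f) - X * (26 * Dx (Dx f) + 13 * Dx f + 2 * f)
    - X ^ 2 * (27 * Dx (Dx f) + 27 * Dx f + 6 * f)

noncomputable def De : K[X] := 1 - 26 * X - 27 * X ^ 2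

noncomputable def Ls (g : K[X]) : K[X] :=
  Dx (De * Dx g - (13 * X + 27 * X ^ 2) * g) - (2 * X + 6 * X ^ 2) * g

lemma coeff_X2_mul (f : K[X]) (n : ℕ) : (X ^ 2 * f).coeff (n + 2) = f.coeff n := by
  rw [pow_two, mul_assoc, show n + 2 = (n + 1) + 1 by ring, coeff_X_mul, coeff_X_mul]

lemma coeff_Lx (f : K[X]) (n : ℕ) : (Lx f).coeff (n + 2)
    = ((n : K) + 2) ^ 2 * f.coeff (n + 2) - (26 * ((n : K) + 1) ^ 2 + 13 * (n + 1) + 2) * f.coeff (n + 1)
      - (27 * (n : K) ^ 2 + 27 * n + 6) * f.coeff n := by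
  unfold Lx
  rw [coeff_sub, coeff_sub, coeff_X2_mul, show n + 2 = (n + 1) + 1 by ring, coeff_X_mul]
  simp only [coeff_add, coeff_ofNat_mul, coeff_Dx]
  push_cast
  ring

lemma coeff_Lx_zero (f : K[X]) : (Lx f).coeff 0 = 0 := by
  unfold Lx
  rw [coeff_sub, coeff_sub, coeff_Dx]
  simp [mul_coeff_zero]

lemma coeff_Lx_one (f : K[X]) : (Lx f).coeff 1 = f.coeff 1 - 2 * f.coeff 0 := by
  have h1 : ∀ g : K[X], (X * g).coeff 1 = g.coeff 0 := fun g => coeff_X_mul g 0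
  have h2 : ∀ g : K[X], (X ^ 2 * g).coeff 1 = 0 := by
    intro g
    rw [pow_two, mul_assoc, h1]
    simp
  unfold Lx
  rw [coeff_sub, coeff_sub, coeff_Dx, h1, h2]
  simp only [coeff_add, coeff_ofNat_mul, coeff_Dx]
  push_cast
  ring

lemma coeff_Ls (f : K[X]) (n : ℕ) : (Ls f).coeff (n + 2)
    = ((n : K) + 2) ^ 2 * f.coeff (n + 2)
      - (26 * ((n : K) + 1) * (n + 2) + 13 * (n + 2) + 2) * f.coeff (n + 1)
      - (27 * (n : K) * (n + 2) + 27 * (n + 2) + 6) * f.coeff n := by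
  unfold Ls De
  have e : (1 - 26 * X - 27 * X ^ 2) * Dx f - (13 * X + 27 * X ^ 2) * f
      = Dx f - X * (26 * Dx f) - X ^ 2 * (27 * Dx f) - X * (13 * f) - X ^ 2 * (27 * f) := by ring
  have e2 : (2 * X + 6 * X ^ 2) * f = X * (2 * f) + X ^ 2 * (6 * f) := by ring
  rw [e, e2, coeff_sub, coeff_Dx]
  simp only [coeff_add, coeff_sub, coeff_X2_mul]
  rw [show n + 2 = (n + 1) + 1 by ring, coeff_X_mul, coeff_X_mul, coeff_X_mul]
  simp only [coeff_ofNat_mul, coeff_Dx]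
  push_cast
  ring

lemma Dx_De : Dx (De : K[X]) = - 2 * (13 * X + 27 * X ^ 2) := by
  unfold De
  rw [Dx_sub, Dx_sub, Dx_mul, Dx_mul, Dx_one, Dx_ofNat, Dx_ofNat, Dx_X, Dx_X_pow]
  push_cast
  ring

lemma Dx_U : Dx ((13 * X + 27 * X ^ 2 : K[X])) = 13 * X + 54 * X ^ 2 := by
  rw [Dx_add, Dx_mul, Dx_mul, Dx_ofNat, Dx_ofNat, Dx_X, Dx_X_pow]
  push_cast
  ring

lemma Lx_eq (f : K[X]) : Lx f = De * Dx (Dx f) - (13 * X + 27 * X ^ 2) * Dx f - (2 * X + 6 * X ^ 2) * f := by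
  unfold Lx De
  ring

lemma pairing (q : ℕ) (hq : 2 * (q : K[X]) + 1 = 0) (Q Y : K[X]) :
    Dx (De ^ (q + 1) * (Q * Dx Y - Y * Dx Q)) = De ^ q * (Q * Lx Y - Y * Lx Q) := by
  rw [Dx_mul, Dx_pow_succ, Dx_De, Dx_sub, Dx_mul, Dx_mul, Lx_eq, Lx_eq]
  have : ((q : K[X]) + 1) * De ^ q * (-2 * (13 * X + 27 * X ^ 2)) = - De ^ q * (13 * X + 27 * X ^ 2) := by
    linear_combination (- De ^ q * (13 * X + 27 * X ^ 2)) * hq
  rw [this]
  ring

lemma Ls_pow (q : ℕ) (hq : 2 * (q : K[X]) + 1 = 0) (Q : K[X]) :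
    Ls (De ^ q * Q) = De ^ q * Lx Q := by
  unfold Ls
  have h1 : De * Dx (De ^ q * Q) - (13 * X + 27 * X ^ 2) * (De ^ q * Q) = De ^ (q + 1) * Dx Q := by
    rw [Dx_mul]
    have h2 := mul_Dx_pow (De : K[X]) q
    rw [Dx_De] at h2
    rw [pow_succ]
    linear_combination Q * h2 - Q * De ^ q * (13 * X + 27 * X ^ 2) * hq
  rw [h1, Dx_mul, Dx_pow_succ, Dx_De, Lx_eq]
  have : ((q : K[X]) + 1) * De ^ q * (-2 * (13 * X + 27 * X ^ 2)) = - De ^ q * (13 * X + 27 * X ^ 2) := by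
    linear_combination (- De ^ q * (13 * X + 27 * X ^ 2)) * hq
  rw [this]
  ring

lemma Lx_pow (q : ℕ) (hq : 2 * (q : K[X]) + 1 = 0) (v : K[X]) :
    Lx (De ^ (q + 1) * v) = De ^ (q + 1) * Ls v := by
  have h0 : ((q : K[X]) + 1) * De ^ q * (-2 * (13 * X + 27 * X ^ 2)) = - De ^ q * (13 * X + 27 * X ^ 2) := by
    linear_combination (- De ^ q * (13 * X + 27 * X ^ 2)) * hq
  have h1 : Dx (De ^ (q + 1) * v) = De ^ q * (De * Dx v - (13 * X + 27 * X ^ 2) * v) := by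
    rw [Dx_mul, Dx_pow_succ, Dx_De, h0]
    ring
  rw [Lx_eq, h1]
  unfold Ls
  generalize De * Dx v - (13 * X + 27 * X ^ 2) * v = U
  rw [Dx_mul]
  have h2 := mul_Dx_pow (De : K[X]) q
  rw [Dx_De] at h2
  linear_combination U * h2 - U * De ^ q * (13 * X + 27 * X ^ 2) * hq

lemma coeff_Lx_natDegree (f : K[X]) : (Lx f).natDegree ≤ f.natDegree + 2 := by
  rw [natDegree_le_iff_coeff_eq_zero]
  intro N hN
  obtain ⟨n, rfl⟩ := Nat.exists_eq_add_of_le' (show 2 ≤ N by omega)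
  rw [coeff_Lx, coeff_eq_zero_of_natDegree_lt (show f.natDegree < n + 2 by omega),
    coeff_eq_zero_of_natDegree_lt (show f.natDegree < n + 1 by omega),
    coeff_eq_zero_of_natDegree_lt (show f.natDegree < n by omega)]
  ring

lemma coeff_Ls_natDegree (f : K[X]) : (Ls f).natDegree ≤ f.natDegree + 2 := by
  rw [natDegree_le_iff_coeff_eq_zero]
  intro N hN
  obtain ⟨n, rfl⟩ := Nat.exists_eq_add_of_le' (show 2 ≤ N by omega)
  rw [coeff_Ls, coeff_eq_zero_of_natDegree_lt (show f.natDegree < n + 2 by omega),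
    coeff_eq_zero_of_natDegree_lt (show f.natDegree < n + 1 by omega),
    coeff_eq_zero_of_natDegree_lt (show f.natDegree < n by omega)]
  ring

lemma Lx_add (f g : K[X]) : Lx (f + g) = Lx f + Lx g := by
  unfold Lx; rw [Dx_add, Dx_add]; ring

lemma Lx_sub (f g : K[X]) : Lx (f - g) = Lx f - Lx g := by
  unfold Lx; rw [Dx_sub, Dx_sub]; ring

lemma Lx_C_mul (a : K) (f : K[X]) : Lx (C a * f) = C a * Lx f := by
  unfold Lx; rw [Dx_mul, Dx_C]; rw [zero_mul, zero_add, Dx_mul, Dx_C]; ring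

lemma Ls_add (f g : K[X]) : Ls (f + g) = Ls f + Ls g := by
  unfold Ls
  rw [Dx_add, mul_add, mul_add, show De * Dx f + De * Dx g - ((13 * X + 27 * X ^ 2) * f + (13 * X + 27 * X ^ 2) * g)
    = (De * Dx f - (13 * X + 27 * X ^ 2) * f) + (De * Dx g - (13 * X + 27 * X ^ 2) * g) by ring, Dx_add]
  ring

end poly

section charp

variable (p : ℕ) [Fact p.Prime]

lemma Dx_Xp_mul (f : (ZMod p)[X]) : Dx (X ^ p * f) = X ^ p * Dx f := by
  rw [Dx_mul, Dx_X_pow]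
  have : ((p : ℕ) : (ZMod p)[X]) = 0 := by
    rw [← map_natCast (C : ZMod p →+* (ZMod p)[X])]
    simp
  rw [this]; ring

lemma Lx_Xp_mul (f : (ZMod p)[X]) : Lx (X ^ p * f) = X ^ p * Lx f := by
  unfold Lx
  rw [Dx_Xp_mul, Dx_Xp_mul]
  ring

lemma Ls_Xp_mul (f : (ZMod p)[X]) : Ls (X ^ p * f) = X ^ p * Ls f := by
  unfold Ls
  rw [Dx_Xp_mul, show De * (X ^ p * Dx f) - (13 * X + 27 * X ^ 2) * (X ^ p * f)
    = X ^ p * (De * Dx f - (13 * X + 27 * X ^ 2) * f) by ring, Dx_Xp_mul]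
  ring

end charp

end Pool.Agent.Lib.MP1f269e
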