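import Mathlib
import Pool.Agent.Lib.MP_1f269e_nt.F

set_option autoImplicit false

namespace Pool.Agent.Lib.MP1f269e

open Polynomial

section poly

variable {K : Type*} [Field K]

/-- polynomial with prescribed coefficients -/
noncomputable def Po (a : ℕ → K) (N : ℕ) : K[X] := ∑ k ∈ Finset.range N, C (a k) * X ^ k

lemma coeff_Po (a : ℕ → K) (N n : ℕ) : (Po a N).coeff n = if n < N then a n else 0 := by
  unfold Po
  rw [finsetSum_coeff]
  simp only [coeff_C_mul_X_pow]
  rw [Finset.sum_ite_eq]
  simp only [Finset.mem_range]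

lemma De_natDegree : (De : K[X]).natDegree ≤ 2 := by
  rw [natDegree_le_iff_coeff_eq_zero]
  intro N hN
  unfold De
  rw [coeff_sub, coeff_sub, coeff_ofNat_mul, coeff_ofNat_mul, coeff_one, coeff_X, coeff_X_pow]
  rw [if_neg (by omega), if_neg (by omega), if_neg (by omega)]
  ring

lemma De_pow_natDegree (n : ℕ) : ((De : K[X]) ^ n).natDegree ≤ 2 * n := by
  calc _ ≤ n * (De : K[X]).natDegree := natDegree_pow_le
    _ ≤ n * 2 := Nat.mul_le_mul_left _ De_natDegree
    _ = 2 * n := by ring

lemma De_pow_coeff_zero (n : ℕ) : ((De : K[X]) ^ n).coeff 0 = 1 := by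
  rw [coeff_zero_eq_eval_zero, eval_pow]
  unfold De
  simp

lemma De_factor : (De : K[X]) = (1 + C 1 * X) * (1 + C (-27) * X) := by
  unfold De
  have : (C (-27 : K)) = (-27 : K[X]) := by
    rw [map_neg]; congr 1
  rw [this]
  simp only [map_one]
  ring

end poly

section charp

variable (p : ℕ) [Fact p.Prime]

lemma two_q (q : ℕ) (hq : p = 2 * q + 1) : 2 * (q : (ZMod p)[X]) + 1 = 0 := by
  have h5 := congrArg (fun x : ℕ => ((x : ℕ) : (ZMod p)[X])) hq
  simp only [CharP.cast_eq_zero] at h5
  rw [h5]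
  push_cast
  ring

lemma cast_ne' (k : ℕ) (c : ℕ) (h0 : c * p < k) (h1 : k < (c + 1) * p) : ((k : ℕ) : ZMod p) ≠ 0 := by
  intro h
  rw [ZMod.natCast_eq_zero_iff] at h
  obtain ⟨d, hd⟩ := h
  have hp : 0 < p := (Fact.out : p.Prime).pos
  rw [hd, mul_comm c p] at h0
  rw [hd, mul_comm (c + 1) p] at h1
  have h2 := Nat.lt_of_mul_lt_mul_left h0
  have h3 := Nat.lt_of_mul_lt_mul_left h1
  omega

/-- data for the argument modulo p -/
structure Dat (M q : ℕ) (Q : (ZMod p)[X]) : Prop where
  hp : 11 ≤ p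
  hM : p = 3 * M + 1 ∨ p = 3 * M + 2
  hq : p = 2 * q + 1
  h0 : Q.coeff 0 = 1
  hL : Lx Q = 0
  hd : Q.natDegree ≤ M

variable {p}
variable {M q : ℕ} {Q : (ZMod p)[X]}

lemma Dat.uniq (D : Dat p M q Q) (Y : (ZMod p)[X]) (hY : Lx Y = 0) :
    ∀ n, n < p → Y.coeff n = Y.coeff 0 * Q.coeff n := by
  intro n
  induction n using Nat.strong_induction_on with
  | _ n ih =>
    intro hn
    rcases n with _ | _ | n
    · rw [D.h0, mul_one]
    · have h1 := coeff_Lx_one Y
      have h2 := coeff_Lx_one Q
      rw [hY, coeff_zero] at h1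
      rw [D.hL, coeff_zero, D.h0] at h2
      rw [zero_add]
      linear_combination Y.coeff 0 * h2 - h1
    · have h1 := coeff_Lx Y n
      have h2 := coeff_Lx Q n
      rw [hY, coeff_zero, ih (n + 1) (by omega) (by omega), ih n (by omega) (by omega)] at h1
      rw [D.hL, coeff_zero] at h2
      have hne : ((n : ZMod p) + 2) ^ 2 ≠ 0 := by
        have := cast_ne' p (n + 2) 0 (by omega) (by omega)
        push_cast at this
        exact pow_ne_zero 2 this
      apply mul_left_cancel₀ hne
      rw [show n + 1 + 1 = n + 2 by ring]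
      linear_combination Y.coeff 0 * h2 - h1

lemma Dat.coprime_step (D : Dat p M q Q) (c f : ZMod p) (hc : c ≠ 0) (hcf : c ≠ f) :
    ¬ ((1 + C c * X) ^ (q + 1) ∣ Q * (1 + C f * X) ^ p) := by
  intro hdvd
  have hcop : IsCoprime (1 + C c * X : (ZMod p)[X]) (1 + C f * X) := by
    have hne : c - f ≠ 0 := sub_ne_zero.mpr hcf
    refine ⟨-C (f * (c - f)⁻¹), C (c * (c - f)⁻¹), ?_⟩
    have h1 : (C ((c - f) * (c - f)⁻¹) : (ZMod p)[X]) = 1 := by
      rw [mul_inv_cancel₀ hne, map_one]
    rw [map_mul, map_sub] at h1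
    rw [map_mul, map_mul]
    linear_combination h1
  have hcop2 := (IsCoprime.pow (m := q + 1) (n := p) hcop)
  have h2 := hcop2.dvd_of_dvd_mul_right hdvd
  have hQ : Q ≠ 0 := by
    intro h
    have := D.h0
    rw [h, coeff_zero] at this
    exact zero_ne_one this
  have h3 := natDegree_le_of_dvd h2 hQ
  have h4 : (1 + C c * X : (ZMod p)[X]).natDegree = 1 := by
    rw [add_comm, ← map_one (C : ZMod p →+* (ZMod p)[X])]
    exact natDegree_linear hc
  rw [natDegree_pow, h4] at h3
  have := D.hd
  have h5 := D.hM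
  have h6 := D.hq
  omega

theorem Dat.star (D : Dat p M q Q) : (De ^ q * Q).coeff (p - 1) ≠ 0 := by
  intro hstar
  have hp := D.hp
  have hM := D.hM
  have hq := D.hq
  have hq' := two_q p q hq
  have hp0 : ((p : ℕ) : ZMod p) = 0 := ZMod.natCast_self p
  set g : (ZMod p)[X] := De ^ q * Q with hg
  have hLs : Ls g = 0 := by rw [hg, Ls_pow q hq', D.hL, mul_zero]
  have hgd : g.natDegree ≤ 2 * q + M :=
    le_trans natDegree_mul_le (Nat.add_le_add (De_pow_natDegree q) D.hd)
  have hg0 : g.coeff 0 = 1 := by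
    rw [hg, mul_coeff_zero, De_pow_coeff_zero, D.h0, mul_one]
  -- descending vanishing
  have hdesc : ∀ j, j + 2 * M + 2 ≤ p → g.coeff (p - 1 - j) = 0 := by
    intro j
    induction j using Nat.strong_induction_on with
    | _ j ih =>
      intro hj
      rcases j with _ | _ | j
      · exact hstar
      · have h1 := coeff_Ls g (p - 2)
        rw [hLs, coeff_zero] at h1
        have e1 : p - 2 + 1 = p - 1 := by omega
        have e3 : ((p - 2 : ℕ) : ZMod p) + 2 = 0 := by
          have : ((p - 2 + 2 : ℕ) : ZMod p) = ((p : ℕ) : ZMod p) := by congr 1; omega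
          rw [hp0] at this
          push_cast at this
          exact this
        rw [e1, hstar] at h1
        have e4 : p - 1 - (0 + 1) = p - 2 := by omega
        rw [e4]
        have h6 : (6 : ZMod p) ≠ 0 := by
          have := cast_ne' p 6 0 (by omega) (by omega)
          push_cast at this
          exact this
        apply mul_left_cancel₀ h6
        rw [mul_zero]
        have e5 : ((p - 2 : ℕ) : ZMod p) = -2 := by linear_combination e3
        rw [e5] at h1
        linear_combination h1
      · obtain ⟨n, hn⟩ : ∃ n, p - 1 - (j + 1 + 1) = n := ⟨_, rfl⟩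
        have i0 := ih j (by omega) (by omega)
        have i1 := ih (j + 1) (by omega) (by omega)
        rw [show p - 1 - j = n + 2 by omega] at i0
        rw [show p - 1 - (j + 1) = n + 1 by omega] at i1
        have h1 := coeff_Ls g n
        rw [hLs, coeff_zero, i0, i1] at h1
        rw [hn]
        have n1 : ((3 * n + 5 : ℕ) : ZMod p) ≠ 0 := cast_ne' p _ 2 (by omega) (by omega)
        have n2 : ((3 * n + 4 : ℕ) : ZMod p) ≠ 0 := cast_ne' p _ 2 (by omega) (by omega)
        have n3 : ((3 : ℕ) : ZMod p) ≠ 0 := cast_ne' p _ 0 (by omega) (by omega)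
        push_cast at n1 n2 n3
        have n4 := mul_ne_zero (mul_ne_zero n3 n1) n2
        apply mul_left_cancel₀ n4
        rw [mul_zero]
        linear_combination h1
  -- splitting
  set gl : (ZMod p)[X] := Po (fun k => g.coeff k) (2 * M + 1) with hgl
  set gh : (ZMod p)[X] := Po (fun k => g.coeff (p + k)) M with hgh
  have hsplit : g = gl + X ^ p * gh := by
    ext n
    rw [coeff_add, hgl, hgh, coeff_Po, coeff_X_pow_mul', coeff_Po]
    by_cases h1 : n < 2 * M + 1
    · rw [if_pos h1, if_neg (by omega), add_zero]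
    · rw [if_neg h1, zero_add]
      by_cases h2 : p ≤ n
      · rw [if_pos h2]
        by_cases h3 : n - p < M
        · rw [if_pos h3]
          congr 1
          omega
        · rw [if_neg h3]
          apply coeff_eq_zero_of_natDegree_lt
          omega
      · rw [if_neg h2]
        have := hdesc (p - 1 - n) (by omega)
        rw [show p - 1 - (p - 1 - n) = n by omega] at this
        exact this
  have hgld : gl.natDegree ≤ 2 * M := by
    rw [natDegree_le_iff_coeff_eq_zero]
    intro N hN
    rw [hgl, coeff_Po, if_neg (by omega)]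
  have hLsgl : Ls gl = 0 := by
    have h1 : Ls gl + X ^ p * Ls gh = 0 := by
      rw [← Ls_Xp_mul, ← Ls_add, ← hsplit, hLs]
    ext n
    rw [coeff_zero]
    by_cases h2 : n < p
    · have h3 := congrArg (fun f => coeff f n) h1
      simp only [coeff_add, coeff_zero] at h3
      rw [coeff_X_pow_mul', if_neg (by omega), add_zero] at h3
      exact h3
    · apply coeff_eq_zero_of_natDegree_lt
      have := coeff_Ls_natDegree gl
      omega
  set Z : (ZMod p)[X] := De ^ (q + 1) * gl with hZ
  have hLZ : Lx Z = 0 := by rw [hZ, Lx_pow q hq', hLsgl, mul_zero]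
  have hZd : Z.natDegree ≤ 2 * (q + 1) + 2 * M :=
    le_trans natDegree_mul_le (Nat.add_le_add (De_pow_natDegree (q + 1)) hgld)
  have hZ0 : Z.coeff 0 = 1 := by
    rw [hZ, mul_coeff_zero, De_pow_coeff_zero, one_mul, hgl, coeff_Po, if_pos (by omega), hg0]
  set Z1 : (ZMod p)[X] := Po (fun k => Z.coeff (p + k)) p with hZ1
  have hZs : Z = Q + X ^ p * Z1 := by
    ext n
    rw [coeff_add, coeff_X_pow_mul']
    by_cases h1 : n < p
    · rw [if_neg (by omega), add_zero, D.uniq Z hLZ n h1, hZ0, one_mul]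
    · rw [if_pos (by omega), coeff_eq_zero_of_natDegree_lt (show Q.natDegree < n by have := D.hd; omega),
        zero_add, hZ1, coeff_Po]
      by_cases h2 : n - p < p
      · rw [if_pos h2]
        congr 1
        omega
      · rw [if_neg h2]
        apply coeff_eq_zero_of_natDegree_lt
        omega
  have hLZ1 : Lx Z1 = 0 := by
    have h1 : X ^ p * Lx Z1 = 0 := by
      have h2 := hLZ
      rw [hZs, Lx_add, Lx_Xp_mul, D.hL, zero_add] at h2
      exact h2
    rcases mul_eq_zero.mp h1 with h2 | h2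
    · exact absurd h2 (pow_ne_zero p X_ne_zero)
    · exact h2
  have hZ1Q : Z1 = C (Z1.coeff 0) * Q := by
    ext n
    rw [coeff_C_mul]
    by_cases h1 : n < p
    · exact D.uniq Z1 hLZ1 n h1
    · rw [coeff_eq_zero_of_natDegree_lt (show Q.natDegree < n by have := D.hd; omega), hZ1, coeff_Po, if_neg h1,
        mul_zero]
  set f : ZMod p := Z1.coeff 0 with hf
  have hfin : Z = Q * (1 + C f * X) ^ p := by
    rw [add_pow_char, one_pow, mul_pow, ← C_pow, ZMod.pow_card, hZs, hZ1Q]
    ring
  have hd1 : (1 + C 1 * X : (ZMod p)[X]) ^ (q + 1) ∣ Q * (1 + C f * X) ^ p := by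
    rw [← hfin, hZ, De_factor, mul_pow, mul_assoc]
    exact Dvd.intro _ rfl
  have hd2 : (1 + C (-27) * X : (ZMod p)[X]) ^ (q + 1) ∣ Q * (1 + C f * X) ^ p := by
    rw [← hfin, hZ, De_factor, mul_pow, mul_assoc, mul_left_comm]
    exact Dvd.intro _ rfl
  have hpp : p.Prime := Fact.out
  have h28 : ((28 : ℕ) : ZMod p) ≠ 0 := by
    intro h
    rw [ZMod.natCast_eq_zero_iff] at h
    have h2 : p ∣ 2 ^ 2 * 7 := h
    rcases (Nat.Prime.dvd_mul hpp).mp h2 with h3 | h3
    · have := Nat.le_of_dvd (by norm_num) (hpp.dvd_of_dvd_pow h3)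
      omega
    · have := Nat.le_of_dvd (by norm_num) h3
      omega
  have h27 : ((27 : ℕ) : ZMod p) ≠ 0 := by
    intro h
    rw [ZMod.natCast_eq_zero_iff] at h
    have h2 : p ∣ 3 ^ 3 := h
    have := Nat.le_of_dvd (by norm_num) (hpp.dvd_of_dvd_pow h2)
    omega
  push_cast at h28 h27
  by_cases hf1 : (1 : ZMod p) = f
  · refine D.coprime_step (-27) f (neg_ne_zero.mpr h27) ?_ hd2
    rw [← hf1]
    intro h
    apply h28
    linear_combination -h
  · exact D.coprime_step 1 f one_ne_zero hf1 hd1

/-- the key vanishing -/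
theorem Dat.key (D : Dat p M q Q) (Y : (ZMod p)[X]) (hYd : Y.natDegree ≤ p - 1)
    (hY : ∀ N, M + 3 ≤ N → N ≤ p → (Lx Y).coeff N = 0) : Y.coeff (p - 1) = 0 := by
  have hp := D.hp
  have hM := D.hM
  have hq := D.hq
  have hq' := two_q p q hq
  have hp0 : ((p : ℕ) : ZMod p) = 0 := ZMod.natCast_self p
  set c : ZMod p := (Lx Y).coeff (p + 1) with hc
  set R : (ZMod p)[X] := Lx Y - C c * X ^ (p + 1) with hR
  have hRd : R.natDegree ≤ M + 2 := by
    rw [natDegree_le_iff_coeff_eq_zero]
    intro N hN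
    rw [hR, coeff_sub, coeff_C_mul_X_pow]
    by_cases h1 : N = p + 1
    · rw [if_pos h1, h1, hc, sub_self]
    · rw [if_neg h1, sub_zero]
      by_cases h2 : N ≤ p
      · exact hY N (by omega) h2
      · apply coeff_eq_zero_of_natDegree_lt
        have := coeff_Lx_natDegree Y
        omega
  set g : (ZMod p)[X] := De ^ q * Q with hg
  have hgd : g.natDegree ≤ 2 * q + M :=
    le_trans natDegree_mul_le (Nat.add_le_add (De_pow_natDegree q) D.hd)
  have h1 := pairing q hq' Q Y
  rw [D.hL, mul_zero, sub_zero] at h1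
  have h2 := congrArg (fun f => coeff f (2 * p)) h1
  simp only [coeff_Dx] at h2
  have h3 : ((2 * p : ℕ) : ZMod p) = 0 := by
    push_cast; rw [hp0]; ring
  rw [h3, zero_mul] at h2
  have h4 : De ^ q * (Q * Lx Y) = g * R + C c * g * X ^ (p + 1) := by
    rw [hg, hR]; ring
  rw [h4, coeff_add] at h2
  have h5 : (g * R).coeff (2 * p) = 0 := by
    apply coeff_eq_zero_of_natDegree_lt
    have := natDegree_mul_le (p := g) (q := R)
    omega
  have h6 : (C c * g * X ^ (p + 1)).coeff (2 * p) = c * g.coeff (p - 1) := by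
    rw [show 2 * p = (p - 1) + (p + 1) by omega, coeff_mul_X_pow, coeff_C_mul]
  rw [h5, h6, zero_add] at h2
  have h7 : c = 0 := by
    rcases mul_eq_zero.mp h2.symm with h | h
    · exact h
    · exact absurd h D.star
  have h8 := coeff_Lx Y (p - 1)
  rw [show p - 1 + 2 = p + 1 by omega, ← hc, h7, coeff_eq_zero_of_natDegree_lt (show Y.natDegree < p + 1 by omega),
    coeff_eq_zero_of_natDegree_lt (show Y.natDegree < p - 1 + 1 by omega)] at h8
  have e5 : ((p - 1 : ℕ) : ZMod p) = -1 := by
    have : ((p - 1 + 1 : ℕ) : ZMod p) = ((p : ℕ) : ZMod p) := by congr 1; omega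
    rw [hp0] at this
    push_cast at this
    linear_combination this
  rw [e5] at h8
  have h6' : (6 : ZMod p) ≠ 0 := by
    have := cast_ne' p 6 0 (by omega) (by omega)
    push_cast at this
    exact this
  apply mul_left_cancel₀ h6'
  rw [mul_zero]
  linear_combination h8

end charp

end Pool.Agent.Lib.MP1f269e
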