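import Mathlib
import Pool.Agent.Lib.MP_1f269e_nt.G

set_option autoImplicit false

namespace Pool.Agent.Lib.MP1f269e

open Polynomial

section poly

variable {K : Type*} [Field K]

noncomputable def Rh : K[X] := 1 + 13 * X + 49 * X ^ 2
noncomputable def Ka : K[X] := 1 + 245 * X + 2401 * X ^ 2
noncomputable def Ee : K[X] := 1 - 490 * X - 21609 * X ^ 2 - 235298 * X ^ 3 - 823543 * X ^ 4
noncomputable def Sx : K[X] := - (432 * X)

noncomputable def Lh (m : K) (f : K[X]) : K[X] :=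
  9 * Rh * Dx (Dx f) - 18 * C m * (13 * X + 98 * X ^ 2) * Dx f
    - (9 * C m * (13 * X + 196 * X ^ 2) + 392 * X ^ 2 + 18 * X) * f

lemma Dx_Rh : Dx (Rh : K[X]) = 13 * X + 98 * X ^ 2 := by
  unfold Rh
  rw [Dx_add, Dx_add, Dx_mul, Dx_mul, Dx_one, Dx_ofNat, Dx_ofNat, Dx_X, Dx_X_pow]
  push_cast
  ring

lemma Dx_Rh2 : Dx (13 * X + 98 * X ^ 2 : K[X]) = 13 * X + 196 * X ^ 2 := by
  rw [Dx_add, Dx_mul, Dx_mul, Dx_ofNat, Dx_ofNat, Dx_X, Dx_X_pow]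
  push_cast
  ring

lemma Dx_Ka : Dx (Ka : K[X]) = 245 * X + 4802 * X ^ 2 := by
  unfold Ka
  rw [Dx_add, Dx_add, Dx_mul, Dx_mul, Dx_one, Dx_ofNat, Dx_ofNat, Dx_X, Dx_X_pow]
  push_cast
  ring

lemma Dx_Ka2 : Dx (245 * X + 4802 * X ^ 2 : K[X]) = 245 * X + 9604 * X ^ 2 := by
  rw [Dx_add, Dx_mul, Dx_mul, Dx_ofNat, Dx_ofNat, Dx_X, Dx_X_pow]
  push_cast
  ring

lemma Dx_Ee : 2 * Dx (Ee : K[X]) - Ee = - Ka ^ 2 := by
  unfold Ee Ka
  rw [Dx_sub, Dx_sub, Dx_sub, Dx_sub, Dx_mul, Dx_mul, Dx_mul, Dx_mul, Dx_one, Dx_ofNat, Dx_ofNat, Dx_ofNat,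
    Dx_ofNat, Dx_X, Dx_X_pow, Dx_X_pow, Dx_X_pow]
  push_cast
  ring

lemma Ee_Sx : 4 * (Sx : K[X]) - Ee ^ 2 = - (Rh * Ka ^ 3) := by
  unfold Sx Ee Rh Ka
  ring

lemma Lh_add (m : K) (f g : K[X]) : Lh m (f + g) = Lh m f + Lh m g := by
  unfold Lh; rw [Dx_add, Dx_add]; ring

lemma Lh_sub (m : K) (f g : K[X]) : Lh m (f - g) = Lh m f - Lh m g := by
  unfold Lh; rw [Dx_sub, Dx_sub]; ring

lemma Lh_C_mul (m a : K) (f : K[X]) : Lh m (C a * f) = C a * Lh m f := by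
  unfold Lh; rw [Dx_mul, Dx_C, zero_mul, zero_add, Dx_mul, Dx_C]; ring

lemma Rh_ne : (Rh : K[X]) ≠ 0 := by
  intro h
  have := congrArg (fun f => eval 0 f) h
  simp [Rh] at this

lemma coeff_Lh (m : K) (f : K[X]) (n : ℕ) : (Lh m f).coeff (n + 2)
    = 9 * ((n : K) + 2) ^ 2 * f.coeff (n + 2)
      + (117 * ((n : K) + 1) ^ 2 - 234 * m * (n + 1) - 117 * m - 18) * f.coeff (n + 1)
      + (441 * (n : K) ^ 2 - 1764 * m * n - 1764 * m - 392) * f.coeff n := by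
  have e : Lh m f = 9 * Dx (Dx f) + X * (117 * Dx (Dx f) - 234 * (C m * Dx f) - 117 * (C m * f) - 18 * f)
      + X ^ 2 * (441 * Dx (Dx f) - 1764 * (C m * Dx f) - 1764 * (C m * f) - 392 * f) := by
    unfold Lh Rh
    ring
  rw [e, coeff_add, coeff_add, coeff_X2_mul, coeff_X_mul]
  simp only [coeff_sub, coeff_ofNat_mul, coeff_Dx, coeff_C_mul]
  push_cast
  ring

lemma coeff_Lh_one (m : K) (f : K[X]) : (Lh m f).coeff 1
    = 9 * f.coeff 1 - (117 * m + 18) * f.coeff 0 := by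
  have h1 : ∀ g : K[X], (X * g).coeff 1 = g.coeff 0 := fun g => coeff_X_mul g 0
  have h2 : ∀ g : K[X], (X ^ 2 * g).coeff 1 = 0 := by
    intro g
    rw [pow_two, mul_assoc, h1]
    simp
  have e : Lh m f = 9 * Dx (Dx f) + X * (117 * Dx (Dx f) - 234 * (C m * Dx f) - 117 * (C m * f) - 18 * f)
      + X ^ 2 * (441 * Dx (Dx f) - 1764 * (C m * Dx f) - 1764 * (C m * f) - 392 * f) := by
    unfold Lh Rh
    ring
  rw [e, coeff_add, coeff_add, h1, h2]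
  simp only [coeff_sub, coeff_ofNat_mul, coeff_Dx, coeff_C_mul]
  push_cast
  ring

lemma term_Lh (i b : ℕ) (m : K) (hm : m = (i : K) + b) (hm2 : 9 * m ^ 2 + 9 * m + 2 = 0) :
    Rh * Lh m (X ^ i * Rh ^ b) = 9 * (((i : K[X])) ^ 2 * Rh ^ 2
      - (26 * (i : K[X]) ^ 2 + 13 * (i : K[X]) + 2) * X * Rh
      - (27 * (i : K[X]) ^ 2 + 27 * (i : K[X]) + 6) * X ^ 2) * (X ^ i * Rh ^ b) := by
  have hmC : (C m : K[X]) = (i : K[X]) + (b : K[X]) := by rw [hm]; simp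
  have hmC2 : 9 * (C m : K[X]) ^ 2 + 9 * C m + 2 = 0 := by
    have := congrArg (C : K →+* K[X]) hm2
    simp only [map_add, map_mul, map_pow, map_ofNat, map_zero] at this
    exact this
  generalize hP : (X ^ i * Rh ^ b : K[X]) = P
  have h1 : Rh * Dx P = ((i : K[X]) * Rh + (b : K[X]) * (13 * X + 98 * X ^ 2)) * P := by
    rw [← hP, Dx_mul, Dx_X_pow]
    have := mul_Dx_pow (Rh : K[X]) b
    rw [Dx_Rh] at this
    linear_combination X ^ i * this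
  have h2 := congrArg Dx h1
  have hi : ∀ k : ℕ, Dx ((k : K[X])) = 0 := by
    intro k
    rw [← map_natCast (C : K →+* K[X]), Dx_C]
  rw [Dx_mul, Dx_mul, Dx_add, Dx_mul, Dx_mul, Dx_Rh, Dx_Rh2, hi, hi] at h2
  unfold Lh
  rw [hmC] at hmC2 ⊢
  have hRh : (Rh : K[X]) = 1 + 13 * X + 49 * X ^ 2 := rfl
  linear_combination (9 * Rh) * h2
    + (9 * ((i : K[X]) * Rh + (b : K[X]) * (13 * X + 98 * X ^ 2)) - 9 * (13 * X + 98 * X ^ 2)
      - 18 * ((i : K[X]) + (b : K[X])) * (13 * X + 98 * X ^ 2)) * h1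
    - ((13 * X + 98 * X ^ 2) ^ 2 * P) * hmC2
    + (-196 * X ^ 2 * (9 * ((i : K[X]) ^ 2 + (i : K[X])) + 2) * P) * hRh

end poly

end Pool.Agent.Lib.MP1f269e
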