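import Mathlib
import Pool.Agent.Lib.MP_1f269e_nt.H

set_option autoImplicit false

namespace Pool.Agent.Lib.MP1f269e

open Polynomial

section poly

variable {K : Type*} [Field K]

/-- truncated sums of the homogenised polynomial -/
noncomputable def Wp (a : ℕ → K) (M n : ℕ) : K[X] :=
  ∑ i ∈ Finset.range n, C (a i) * (X ^ i * Rh ^ (M - i))

lemma Wp_succ (a : ℕ → K) (M n : ℕ) : Wp a M (n + 1) = Wp a M n + C (a n) * (X ^ n * Rh ^ (M - n)) := by
  unfold Wp
  rw [Finset.sum_range_succ]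

lemma term_Lh' (i r : ℕ) (m : K) (hm : m = (i : K) + ((r + 1 : ℕ) : K)) (hm2 : 9 * m ^ 2 + 9 * m + 2 = 0) :
    Lh m (X ^ i * Rh ^ (r + 1)) = 9 * (((i : K[X])) ^ 2 * (X ^ i * Rh ^ (r + 2))
      - (26 * (i : K[X]) ^ 2 + 13 * (i : K[X]) + 2) * (X ^ (i + 1) * Rh ^ (r + 1))
      - (27 * (i : K[X]) ^ 2 + 27 * (i : K[X]) + 6) * (X ^ (i + 2) * Rh ^ r)) := by
  have h := term_Lh i (r + 1) m hm hm2
  apply mul_left_cancel₀ (Rh_ne (K := K))
  rw [h]
  ring

lemma term_Lh_last (M : ℕ) (hm2 : 9 * (M : K) ^ 2 + 9 * (M : K) + 2 = 0) :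
    Lh (M : K) (X ^ M) = 9 * (((M : K[X])) ^ 2 * (X ^ M * Rh)
      - (26 * (M : K[X]) ^ 2 + 13 * (M : K[X]) + 2) * (X ^ (M + 1))) := by
  have h := term_Lh M 0 (M : K) (by simp) hm2
  apply mul_left_cancel₀ (Rh_ne (K := K))
  have hmC2 : 9 * (M : K[X]) ^ 2 + 9 * (M : K[X]) + 2 = 0 := by
    have := congrArg (C : K →+* K[X]) hm2
    simp only [map_add, map_mul, map_pow, map_ofNat, map_zero, map_natCast] at this
    exact this
  rw [pow_zero, mul_one] at h
  rw [h]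
  linear_combination (-27 * X ^ 2 * X ^ M) * hmC2

lemma Wp_Lh (a : ℕ → K) (h0 : a 0 = 1) (h1 : a 1 = 2) (M : ℕ)
    (hr : ∀ n, n + 2 ≤ M + 1 → ((n : K) + 2) ^ 2 * a (n + 2)
      = (26 * ((n : K) + 1) ^ 2 + 13 * (n + 1) + 2) * a (n + 1) + 3 * (3 * n + 2) * (3 * n + 1) * a n)
    (hm2 : 9 * (M : K) ^ 2 + 9 * (M : K) + 2 = 0) :
    ∀ i r, M = i + 1 + r → Lh (M : K) (Wp a M (i + 1))
      = - (9 * C (((i : K) + 1) ^ 2 * a (i + 1)) * (X ^ (i + 1) * Rh ^ (r + 1)))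
        - 9 * C (3 * (3 * (i : K) + 2) * (3 * i + 1) * a i) * (X ^ (i + 2) * Rh ^ r) := by
  intro i
  induction i with
  | zero =>
    intro r hM
    have e : Wp a M (0 + 1) = X ^ 0 * Rh ^ (r + 1) := by
      unfold Wp
      rw [Finset.sum_range_succ, Finset.range_zero, Finset.sum_empty, h0]
      rw [show M - 0 = r + 1 by omega]
      simp
    rw [e, term_Lh' 0 r (M : K) (by rw [hM]; push_cast; ring) hm2, h0]
    simp only [zero_add, h1]
    have c2 : (C ((((0 : ℕ) : K) + 1) ^ 2 * 2) : K[X]) = 2 := by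
      rw [Nat.cast_zero, zero_add, one_pow, one_mul]
      exact map_ofNat C 2
    have c6 : (C (3 * (3 * ((0 : ℕ) : K) + 2) * (3 * ((0 : ℕ) : K) + 1) * 1) : K[X]) = 6 := by
      rw [Nat.cast_zero, show (3 * (3 * (0 : K) + 2) * (3 * 0 + 1) * 1) = 6 by norm_num]
      exact map_ofNat C 6
    rw [c2, c6]
    push_cast
    ring
  | succ i ih =>
    intro r hM
    rw [Wp_succ, Lh_add, Lh_C_mul, ih (r + 1) (by omega)]
    rw [show M - (i + 1) = r + 1 by omega,
      term_Lh' (i + 1) r (M : K) (by rw [hM]; push_cast; ring) hm2]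
    have hrec := congrArg (C : K →+* K[X]) (hr i (by omega))
    simp only [map_add, map_mul, map_pow, map_ofNat, map_natCast, map_one] at hrec
    simp only [map_add, map_mul, map_pow, map_ofNat, map_natCast, map_one]
    push_cast
    rw [show i + 1 + 1 = i + 2 by ring]
    linear_combination (9 * X ^ (i + 2) * Rh ^ (r + 1)) * hrec

lemma Wp_Lh_last (a : ℕ → K) (h0 : a 0 = 1) (h1 : a 1 = 2) (M : ℕ) (hM1 : 1 ≤ M)
    (hr : ∀ n, n + 2 ≤ M + 1 → ((n : K) + 2) ^ 2 * a (n + 2)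
      = (26 * ((n : K) + 1) ^ 2 + 13 * (n + 1) + 2) * a (n + 1) + 3 * (3 * n + 2) * (3 * n + 1) * a n)
    (hm2 : 9 * (M : K) ^ 2 + 9 * (M : K) + 2 = 0) :
    Lh (M : K) (Wp a M (M + 1)) = C (- (9 * (((M : K) + 1) ^ 2 * a (M + 1)))) * X ^ (M + 1) := by
  obtain ⟨i, rfl⟩ := Nat.exists_eq_add_of_le' hM1
  rw [Wp_succ, Lh_add, Lh_C_mul, Wp_Lh a h0 h1 (i + 1) hr hm2 i 0 (by ring)]
  have e1 : (X : K[X]) ^ (i + 1) * Rh ^ (i + 1 - (i + 1)) = X ^ (i + 1) := by
    rw [Nat.sub_self, pow_zero, mul_one]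
  rw [e1, term_Lh_last (i + 1) hm2]
  have hrec := congrArg (C : K →+* K[X]) (hr i (by omega))
  simp only [map_add, map_mul, map_pow, map_ofNat, map_natCast, map_one] at hrec
  simp only [map_add, map_mul, map_pow, map_ofNat, map_natCast, map_one, map_neg]
  push_cast
  rw [show i + 1 + 1 = i + 2 by ring]
  linear_combination (9 * X ^ (i + 2)) * hrec

lemma Rh_natDegree : (Rh : K[X]).natDegree ≤ 2 := by
  rw [natDegree_le_iff_coeff_eq_zero]
  intro N hN
  unfold Rh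
  rw [coeff_add, coeff_add, coeff_ofNat_mul, coeff_ofNat_mul, coeff_one, coeff_X, coeff_X_pow]
  rw [if_neg (by omega), if_neg (by omega), if_neg (by omega)]
  ring

lemma Wp_natDegree_term (M i : ℕ) (hi : i ≤ M) :
    ((X : K[X]) ^ i * Rh ^ (M - i)).natDegree ≤ 2 * M - i := by
  have h1 : ((Rh : K[X]) ^ (M - i)).natDegree ≤ (M - i) * 2 :=
    le_trans natDegree_pow_le (Nat.mul_le_mul_left _ Rh_natDegree)
  have h2 : ((X : K[X]) ^ i * Rh ^ (M - i)).natDegree ≤ i + (M - i) * 2 :=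
    le_trans natDegree_mul_le (Nat.add_le_add (natDegree_X_pow_le i) h1)
  omega

lemma Wp_natDegree (a : ℕ → K) (M : ℕ) : (Wp a M (M + 1)).natDegree ≤ 2 * M := by
  unfold Wp
  apply natDegree_sum_le_of_forall_le
  intro i hi
  rw [Finset.mem_range] at hi
  calc (C (a i) * (X ^ i * Rh ^ (M - i))).natDegree ≤ (X ^ i * Rh ^ (M - i)).natDegree :=
        natDegree_C_mul_le _ _
    _ ≤ 2 * M - i := Wp_natDegree_term M i (by omega)
    _ ≤ 2 * M := by omega

lemma Wp_coeff_top (a : ℕ → K) (h0 : a 0 = 1) (M : ℕ) : (Wp a M (M + 1)).coeff (2 * M) = 49 ^ M := by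
  unfold Wp
  rw [Finset.sum_range_succ', coeff_add, finsetSum_coeff, Finset.sum_eq_zero, zero_add]
  · rw [h0, map_one, one_mul, pow_zero, one_mul, Nat.sub_zero, mul_comm 2 M,
      coeff_pow_of_natDegree_le Rh_natDegree]
    congr 1
    unfold Rh
    rw [coeff_add, coeff_add, coeff_ofNat_mul, coeff_ofNat_mul, coeff_one, coeff_X, coeff_X_pow]
    norm_num
  · intro i hi
    rw [Finset.mem_range] at hi
    apply coeff_eq_zero_of_natDegree_lt
    calc (C (a (i + 1)) * (X ^ (i + 1) * Rh ^ (M - (i + 1)))).natDegree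
        ≤ (X ^ (i + 1) * Rh ^ (M - (i + 1))).natDegree := natDegree_C_mul_le _ _
      _ ≤ 2 * M - (i + 1) := Wp_natDegree_term M (i + 1) (by omega)
      _ < 2 * M := by omega

lemma Wp_coeff_zero (a : ℕ → K) (h0 : a 0 = 1) (M : ℕ) : (Wp a M (M + 1)).coeff 0 = 1 := by
  unfold Wp
  rw [Finset.sum_range_succ', coeff_add, finsetSum_coeff, Finset.sum_eq_zero, zero_add]
  · rw [h0, map_one, one_mul, pow_zero, one_mul, Nat.sub_zero, coeff_zero_eq_eval_zero, eval_pow]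
    unfold Rh
    simp
  · intro i _
    rw [coeff_zero_eq_eval_zero]
    simp

/-! the other polynomial -/

def cc (N k : ℕ) : ℕ := N.choose (2 * k) * (2 * k).choose k

lemma cc_rel (N k : ℕ) : cc N k * (N - 2 * k) * (N - 2 * k - 1) = cc N (k + 1) * (k + 1) ^ 2 := by
  unfold cc
  have h1 := Nat.choose_succ_right_eq N (2 * k)
  have h2 := Nat.choose_succ_right_eq N (2 * k + 1)
  have h3 : (k + 1) * (2 * (k + 1)).choose (k + 1) = 2 * (2 * k + 1) * (2 * k).choose k :=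
    Nat.succ_mul_centralBinom_succ k
  rw [show N - (2 * k + 1) = N - 2 * k - 1 by omega] at h2
  rw [show 2 * k + 1 + 1 = 2 * (k + 1) by ring] at h2
  calc N.choose (2 * k) * (2 * k).choose k * (N - 2 * k) * (N - 2 * k - 1)
      = (N.choose (2 * k) * (N - 2 * k)) * (N - 2 * k - 1) * (2 * k).choose k := by ring
    _ = (N.choose (2 * k + 1) * (N - 2 * k - 1)) * ((2 * k + 1) * (2 * k).choose k) := by rw [← h1]; ring
    _ = N.choose (2 * (k + 1)) * (k + 1) * (2 * (2 * k + 1) * (2 * k).choose k) := by rw [← h2]; ring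
    _ = N.choose (2 * (k + 1)) * (2 * (k + 1)).choose (k + 1) * (k + 1) ^ 2 := by rw [← h3]; ring

noncomputable def G0 (N : ℕ) : K[X] :=
  ∑ k ∈ Finset.range (N + 1), (cc N k : K[X]) * (Sx ^ k * Ee ^ (N - 2 * k))

noncomputable def G1p (N : ℕ) : K[X] :=
  ∑ k ∈ Finset.range (N + 1), (cc N k : K[X]) * ((N - 2 * k : ℕ) : K[X]) * (Sx ^ k * Ee ^ (N - 2 * k - 1))

noncomputable def G2p (N : ℕ) : K[X] :=
  ∑ k ∈ Finset.range (N + 1), (cc N k : K[X]) * ((N - 2 * k : ℕ) : K[X]) * ((N - 2 * k - 1 : ℕ) : K[X])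
    * (Sx ^ k * Ee ^ (N - 2 * k - 2))

lemma Dx_natCast (k : ℕ) : Dx ((k : K[X])) = 0 := by
  rw [← map_natCast (C : K →+* K[X]), Dx_C]

lemma Dx_sum {ι : Type*} (s : Finset ι) (f : ι → K[X]) : Dx (∑ i ∈ s, f i) = ∑ i ∈ s, Dx (f i) := by
  unfold Dx
  rw [derivative_sum, Finset.mul_sum]

lemma Dx_Sx : Dx (Sx : K[X]) = Sx := by
  unfold Sx Dx
  simp
  ring

lemma Dx_Sx_pow (k : ℕ) : Dx ((Sx : K[X]) ^ k) = (k : K[X]) * Sx ^ k := by
  cases k with
  | zero => simp [Dx_one]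
  | succ n =>
    rw [Dx_pow_succ, Dx_Sx]
    push_cast
    ring

lemma Dx_pow' (f : K[X]) (n : ℕ) : Dx (f ^ n) = (n : K[X]) * f ^ (n - 1) * Dx f := by
  cases n with
  | zero => simp [Dx_one]
  | succ n =>
    rw [Dx_pow_succ, Nat.add_sub_cancel]
    push_cast
    ring

lemma mul_pow_pred (f : K[X]) (n : ℕ) : (n : K[X]) * (f ^ (n - 1) * f) = (n : K[X]) * f ^ n := by
  cases n with
  | zero => simp
  | succ n => rw [Nat.add_sub_cancel, pow_succ]

lemma cc_zero (N k : ℕ) (h : N < 2 * k) : cc N k = 0 := by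
  unfold cc
  rw [Nat.choose_eq_zero_of_lt h, Nat.zero_mul]

lemma G_a (N : ℕ) : 2 * Dx (G0 N : K[X]) = (2 * Dx Ee - Ee) * G1p N + (N : K[X]) * G0 N := by
  unfold G0 G1p
  rw [Dx_sum, Finset.mul_sum, Finset.mul_sum, Finset.mul_sum, ← Finset.sum_add_distrib]
  apply Finset.sum_congr rfl
  intro k _
  rcases Nat.lt_or_ge N (2 * k) with h | h
  · rw [cc_zero N k h]
    simp [Dx, derivative_zero]
  · obtain ⟨m, hm⟩ := Nat.exists_eq_add_of_le h
    have hm' : N - 2 * k = m := by omega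
    rw [hm', Dx_mul, Dx_natCast, Dx_mul, Dx_Sx_pow, Dx_pow']
    have h3 := mul_pow_pred (Ee : K[X]) m
    rw [hm]
    push_cast
    linear_combination ((cc (2 * k + m) k : K[X]) * Sx ^ k) * h3

lemma G_b (N : ℕ) : 2 * Dx (G1p N : K[X]) = (2 * Dx Ee - Ee) * G2p N + ((N : K[X]) - 1) * G1p N := by
  unfold G1p G2p
  rw [Dx_sum, Finset.mul_sum, Finset.mul_sum, Finset.mul_sum, ← Finset.sum_add_distrib]
  apply Finset.sum_congr rfl
  intro k _
  rcases Nat.lt_or_ge N (2 * k) with h | h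
  · rw [cc_zero N k h]
    simp [Dx, derivative_zero]
  · obtain ⟨m, hm⟩ := Nat.exists_eq_add_of_le h
    have hm' : N - 2 * k = m := by omega
    rw [hm', Dx_mul, Dx_mul, Dx_natCast, Dx_natCast, Dx_mul, Dx_Sx_pow, Dx_pow']
    rcases m with _ | m
    · simp
    · have e : m + 1 - 1 = m := by omega
      have e2 : m + 1 - 2 = m - 1 := by omega
      rw [e, e2, hm]
      have h3 := mul_pow_pred (Ee : K[X]) m
      push_cast
      linear_combination ((cc (2 * k + (m + 1)) k : K[X]) * ((m : K[X]) + 1) * Sx ^ k) * h3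

lemma G_c (N : ℕ) : (4 * Sx - Ee ^ 2) * G2p N
    = (N : K[X]) ^ 2 * G0 N - (2 * (N : K[X]) - 1) * (Ee * (G1p N : K[X])) := by
  have hA : 4 * Sx * (G2p N : K[X]) = ∑ k ∈ Finset.range (N + 1),
      4 * (k : K[X]) ^ 2 * (cc N k : K[X]) * (Sx ^ k * Ee ^ (N - 2 * k)) := by
    have h1 : ∑ k ∈ Finset.range (N + 2), 4 * (k : K[X]) ^ 2 * (cc N k : K[X]) * (Sx ^ k * Ee ^ (N - 2 * k))
        = ∑ k ∈ Finset.range (N + 1), 4 * (k : K[X]) ^ 2 * (cc N k : K[X]) * (Sx ^ k * Ee ^ (N - 2 * k)) := by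
      rw [Finset.sum_range_succ, cc_zero N (N + 1) (by omega)]
      simp
    rw [← h1, Finset.sum_range_succ']
    unfold G2p
    rw [Finset.mul_sum]
    simp only [Nat.cast_zero]
    rw [show (4 * (0 : K[X]) ^ 2 * (cc N 0 : K[X]) * (Sx ^ 0 * Ee ^ (N - 2 * 0))) = 0 by ring, add_zero]
    apply Finset.sum_congr rfl
    intro k _
    have h2 := congrArg (fun x : ℕ => (x : K[X])) (cc_rel N k)
    push_cast at h2
    rw [show N - 2 * (k + 1) = N - 2 * k - 2 by omega]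
    push_cast
    linear_combination (4 * Sx * (Sx ^ k * Ee ^ (N - 2 * k - 2))) * h2
  have hB : Ee ^ 2 * (G2p N : K[X]) = ∑ k ∈ Finset.range (N + 1),
      (cc N k : K[X]) * ((N - 2 * k : ℕ) : K[X]) * ((N - 2 * k - 1 : ℕ) : K[X]) * (Sx ^ k * Ee ^ (N - 2 * k)) := by
    unfold G2p
    rw [Finset.mul_sum]
    apply Finset.sum_congr rfl
    intro k _
    obtain ⟨m, hm⟩ : ∃ m, N - 2 * k = m := ⟨_, rfl⟩
    rw [hm]
    rcases m with _ | _ | m
    · simp
    · simp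
    · rw [show m + 1 + 1 - 2 = m by omega]
      ring
  have hC : Ee * (G1p N : K[X]) = ∑ k ∈ Finset.range (N + 1),
      (cc N k : K[X]) * ((N - 2 * k : ℕ) : K[X]) * (Sx ^ k * Ee ^ (N - 2 * k)) := by
    unfold G1p
    rw [Finset.mul_sum]
    apply Finset.sum_congr rfl
    intro k _
    obtain ⟨m, hm⟩ : ∃ m, N - 2 * k = m := ⟨_, rfl⟩
    rw [hm]
    have := mul_pow_pred (Ee : K[X]) m
    linear_combination ((cc N k : K[X]) * Sx ^ k) * this
  rw [sub_mul, hA, hB, hC]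
  unfold G0
  rw [Finset.mul_sum, Finset.mul_sum, ← Finset.sum_sub_distrib, ← Finset.sum_sub_distrib]
  apply Finset.sum_congr rfl
  intro k _
  rcases Nat.lt_or_ge N (2 * k) with h | h
  · rw [cc_zero N k h]
    simp
  · obtain ⟨m, hm⟩ := Nat.exists_eq_add_of_le h
    have hm' : N - 2 * k = m := by omega
    rw [hm']
    have hN : (N : K[X]) = 2 * (k : K[X]) + (m : K[X]) := by rw [hm]; push_cast; ring
    rw [hN]
    rcases m with _ | m
    · push_cast; ring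
    · rw [show m + 1 - 1 = m by omega]
      push_cast
      ring

end poly

end Pool.Agent.Lib.MP1f269e
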