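import Mathlib
import Pool.Agent.Lib.MP_1f269e_nt.I

set_option autoImplicit false

namespace Pool.Agent.Lib.MP1f269e

open Polynomial

section poly

variable {K : Type*} [Field K]

lemma rel_e1 : (Ee : K[X]) - Rh * Ka
    = -3 * Rh * (245 * X + 4802 * X ^ 2) - Ka * (13 * X + 98 * X ^ 2) := by
  unfold Ee Rh Ka; ring

lemma rel_e2 : (Rh : K[X]) - Ka - 8 * (13 * X + 98 * X ^ 2) = -336 * X - 3136 * X ^ 2 := by
  unfold Rh Ka; ring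

lemma rel_e3 : (36 * Rh * (245 * X + 9604 * X ^ 2) - 72 * (13 * X + 98 * X ^ 2) * (245 * X + 4802 * X ^ 2)
      - 36 * (13 * X + 196 * X ^ 2) * Ka - (1568 * X ^ 2 + 72 * X) * Ka : K[X])
    = 5 * (6 * Rh * (245 * X + 4802 * X ^ 2) - 6 * (13 * X + 98 * X ^ 2) * Ka
      - 24 * (13 * X + 98 * X ^ 2) * (245 * X + 4802 * X ^ 2) - 12 * (13 * X + 196 * X ^ 2) * Ka
      + Ka * (420 * X + 3920 * X ^ 2)) := by
  unfold Rh Ka; ring

lemma G_a2 (N : ℕ) : 2 * Dx (Dx (G0 N : K[X]))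
    = -(2 * Ka * (245 * X + 4802 * X ^ 2) * G1p N + Ka ^ 2 * Dx (G1p N)) + (N : K[X]) * Dx (G0 N) := by
  have a2 := congrArg Dx (G_a (K := K) N)
  rw [Dx_Ee, Dx_mul, Dx_add, Dx_mul, Dx_mul, Dx_ofNat, Dx_natCast] at a2
  have hn : ∀ f : K[X], Dx (-f) = - Dx f := by
    intro f; unfold Dx; simp
  rw [hn, Dx_pow_succ Ka 1, Dx_Ka] at a2
  push_cast at a2
  linear_combination a2

lemma L_one (N : ℕ) (h6 : 6 * (N : K[X]) + 1 = 0) (h4 : (4 : K[X]) ≠ 0) (m : K)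
    (hm : C m = 2 * (N : K[X])) : Lh m (G0 N) = 0 := by
  have a1 := G_a (K := K) N
  have a2 := G_a2 (K := K) N
  have b1 := G_b (K := K) N
  have c1 := G_c (K := K) N
  have e1 := rel_e1 (K := K)
  have e2 := rel_e2 (K := K)
  rw [Dx_Ee] at a1 b1
  rw [Ee_Sx] at c1
  unfold Lh
  rw [hm]
  apply mul_left_cancel₀ h4
  rw [mul_zero]
  linear_combination (18 * Rh) * a2 + (9 * Rh * (N : K[X]) - 72 * (N : K[X]) * (13 * X + 98 * X ^ 2)) * a1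
    - (9 * Rh * Ka ^ 2) * b1 - (9 * Ka) * c1 - (12 * Ka * G1p N) * e1 + (9 * (N : K[X]) ^ 2 * G0 N) * e2
    + (3 * Ka * (Ee - Rh * Ka + 4 * Ka * (13 * X + 98 * X ^ 2)) * G1p N
      + ((6 * (N : K[X]) - 1) * (-84 * X - 784 * X ^ 2) - 12 * (13 * X + 196 * X ^ 2)) * G0 N) * h6

lemma L_two (N : ℕ) (h6 : 6 * (N : K[X]) + 5 = 0) (h4 : (4 : K[X]) ≠ 0) (m : K)
    (hm : C m = 2 * (N : K[X]) + 1) : Lh m (Ka * G0 N) = 0 := by
  have a1 := G_a (K := K) N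
  have a2 := G_a2 (K := K) N
  have b1 := G_b (K := K) N
  have c1 := G_c (K := K) N
  have e1 := rel_e1 (K := K)
  have e2 := rel_e2 (K := K)
  have e3 := rel_e3 (K := K)
  rw [Dx_Ee] at a1 b1
  rw [Ee_Sx] at c1
  unfold Lh
  rw [hm, Dx_mul, Dx_add, Dx_mul, Dx_mul, Dx_Ka, Dx_Ka2]
  apply mul_left_cancel₀ h4
  rw [mul_zero]
  linear_combination (18 * Rh * Ka) * a2
    + (36 * Rh * (245 * X + 4802 * X ^ 2) - 36 * (2 * (N : K[X]) + 1) * (13 * X + 98 * X ^ 2) * Ka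
      + 9 * Rh * Ka * (N : K[X])) * a1
    - (9 * Rh * Ka ^ 3) * b1 - (9 * Ka ^ 2) * c1 - (24 * Ka ^ 2 * G1p N) * e1
    + (9 * (N : K[X]) ^ 2 * Ka * G0 N) * e2 + G0 N * e3
    + (3 * Ka ^ 2 * (Ee - Rh * Ka + 4 * Ka * (13 * X + 98 * X ^ 2)) * G1p N
      + ((N : K[X]) * Ka * (-504 * X - 4704 * X ^ 2)
        + 6 * Rh * (245 * X + 4802 * X ^ 2) - 24 * (13 * X + 98 * X ^ 2) * (245 * X + 4802 * X ^ 2)
        - 6 * Ka * (13 * X + 98 * X ^ 2) - 12 * Ka * (13 * X + 196 * X ^ 2)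
        + Ka * (420 * X + 3920 * X ^ 2)) * G0 N) * h6

end poly

end Pool.Agent.Lib.MP1f269e
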