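import Mathlib
import Pool.Agent.Lib.MP_1f269e_nt.J

set_option autoImplicit false

namespace Pool.Agent.Lib.MP1f269e

open Polynomial

section charp

variable (p : ℕ) [Fact p.Prime]

lemma m_rel (M : ℕ) (hM : p = 3 * M + 1 ∨ p = 3 * M + 2) :
    9 * (M : ZMod p) ^ 2 + 9 * (M : ZMod p) + 2 = 0 := by
  have hp0 : ((p : ℕ) : ZMod p) = 0 := ZMod.natCast_self p
  rcases hM with h4 | h4
  · have h5 := congrArg (fun x : ℕ => (x : ZMod p)) h4
    push_cast at h5
    rw [hp0] at h5
    linear_combination (-(3 * (M : ZMod p) + 2)) * h5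
  · have h5 := congrArg (fun x : ℕ => (x : ZMod p)) h4
    push_cast at h5
    rw [hp0] at h5
    linear_combination (-(3 * (M : ZMod p) + 1)) * h5

lemma compare (hp : 11 ≤ p) (M : ℕ) (hM : p = 3 * M + 1 ∨ p = 3 * M + 2) (c : ZMod p) (E : (ZMod p)[X])
    (hd : E.natDegree ≤ 2 * M) (h0 : E.coeff 0 = 0) (ht : E.coeff (2 * M) = 0)
    (hL : Lh (M : ZMod p) E = C c * X ^ (M + 1)) : c = 0 := by
  have hm := m_rel p M hM
  have hcoef : ∀ n, (Lh (M : ZMod p) E).coeff n = if n = M + 1 then c else 0 := by
    intro n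
    rw [hL, coeff_C_mul_X_pow]
  have h9 : (9 : ZMod p) ≠ 0 := by
    have := cast_ne' p 9 0 (by omega) (by omega)
    push_cast at this
    exact this
  -- ascending
  have hasc : ∀ n, n ≤ M → E.coeff n = 0 := by
    intro n
    induction n using Nat.strong_induction_on with
    | _ n ih =>
      intro hn
      rcases n with _ | _ | n
      · exact h0
      · have h1 := coeff_Lh_one (M : ZMod p) E
        rw [hcoef, if_neg (by omega), h0] at h1
        rw [zero_add]
        apply mul_left_cancel₀ h9
        linear_combination -h1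
      · have h1 := coeff_Lh (M : ZMod p) E n
        rw [hcoef, if_neg (by omega), ih n (by omega) (by omega), ih (n + 1) (by omega) (by omega)] at h1
        have hne : 9 * ((n : ZMod p) + 2) ^ 2 ≠ 0 := by
          have := cast_ne' p (n + 2) 0 (by omega) (by omega)
          push_cast at this
          exact mul_ne_zero h9 (pow_ne_zero 2 this)
        apply mul_left_cancel₀ hne
        rw [show n + 1 + 1 = n + 2 by ring]
        linear_combination -h1
  -- descending
  have hdesc : ∀ j, j ≤ M → E.coeff (2 * M - j) = 0 := by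
    intro j
    induction j using Nat.strong_induction_on with
    | _ j ih =>
      intro hj
      rcases j with _ | j
      · exact ht
      · obtain ⟨n, hn⟩ : ∃ n, 2 * M - (j + 1) = n := ⟨_, rfl⟩
        have h1 := coeff_Lh (M : ZMod p) E n
        have e2 : E.coeff (n + 2) = 0 := by
          rcases j with _ | j
          · apply coeff_eq_zero_of_natDegree_lt
            omega
          · have := ih j (by omega) (by omega)
            rw [show 2 * M - j = n + 2 by omega] at this
            exact this
        have e1 : E.coeff (n + 1) = 0 := by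
          have := ih j (by omega) (by omega)
          rw [show 2 * M - j = n + 1 by omega] at this
          exact this
        rw [hcoef, if_neg (by omega), e1, e2] at h1
        rw [hn]
        have hnj : (n : ZMod p) - 2 * (M : ZMod p) = -((j + 1 : ℕ) : ZMod p) := by
          have : ((2 * M : ℕ) : ZMod p) = ((n + (j + 1) : ℕ) : ZMod p) := by congr 1; omega
          push_cast at this ⊢
          linear_combination -this
        have hne : 441 * ((n : ZMod p) - 2 * (M : ZMod p)) ^ 2 ≠ 0 := by
          rw [hnj]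
          apply mul_ne_zero
          · have h3 : ((3 : ℕ) : ZMod p) ≠ 0 := cast_ne' p 3 0 (by omega) (by omega)
            have h7 : ((7 : ℕ) : ZMod p) ≠ 0 := cast_ne' p 7 0 (by omega) (by omega)
            push_cast at h3 h7
            have := mul_ne_zero (mul_ne_zero h3 h3) (mul_ne_zero h7 h7)
            intro h
            apply this
            linear_combination h
          · apply pow_ne_zero 2
            rw [neg_ne_zero]
            exact cast_ne' p (j + 1) 0 (by omega) (by omega)
        apply mul_left_cancel₀ hne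
        rw [mul_zero]
        linear_combination (-1 : ZMod p) * h1 + (196 * E.coeff n) * hm
  obtain ⟨n, hn⟩ := Nat.exists_eq_add_of_le' (show 1 ≤ M by omega)
  have h1 := coeff_Lh (M : ZMod p) E n
  rw [hcoef, if_pos (by omega)] at h1
  have e2 : E.coeff (n + 2) = 0 := by
    have := hdesc (M - 1) (by omega)
    rw [show 2 * M - (M - 1) = n + 2 by omega] at this
    exact this
  rw [e2, hasc (n + 1) (by omega), hasc n (by omega)] at h1
  rw [h1]; ring

lemma Sx_natDegree {K : Type*} [Field K] : (Sx : K[X]).natDegree ≤ 1 := by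
  unfold Sx
  rw [natDegree_neg, natDegree_le_iff_coeff_eq_zero]
  intro N hN
  rw [coeff_ofNat_mul, coeff_X, if_neg (by omega), mul_zero]

lemma Ee_natDegree {K : Type*} [Field K] : (Ee : K[X]).natDegree ≤ 4 := by
  rw [natDegree_le_iff_coeff_eq_zero]
  intro N hN
  unfold Ee
  simp only [coeff_sub, coeff_ofNat_mul, coeff_one, coeff_X, coeff_X_pow]
  rw [if_neg (by omega), if_neg (by omega), if_neg (by omega), if_neg (by omega), if_neg (by omega)]
  ring

lemma G0_term_natDegree {K : Type*} [Field K] (N k : ℕ) (hk : 2 * k ≤ N) :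
    ((Sx : K[X]) ^ k * Ee ^ (N - 2 * k)).natDegree ≤ 4 * N - 7 * k := by
  have h1 : ((Sx : K[X]) ^ k).natDegree ≤ k * 1 :=
    le_trans natDegree_pow_le (Nat.mul_le_mul_left _ Sx_natDegree)
  have h2 : ((Ee : K[X]) ^ (N - 2 * k)).natDegree ≤ (N - 2 * k) * 4 :=
    le_trans natDegree_pow_le (Nat.mul_le_mul_left _ Ee_natDegree)
  have h3 := le_trans (natDegree_mul_le (p := (Sx : K[X]) ^ k) (q := Ee ^ (N - 2 * k))) (Nat.add_le_add h1 h2)
  omega

lemma natCast_mul_natDegree {K : Type*} [Field K] (c : ℕ) (f : K[X]) : ((c : K[X]) * f).natDegree ≤ f.natDegree := by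
  rw [← map_natCast (C : K →+* K[X])]
  exact natDegree_C_mul_le _ _

lemma G0_natDegree {K : Type*} [Field K] (N : ℕ) : (G0 N : K[X]).natDegree ≤ 4 * N := by
  unfold G0
  apply natDegree_sum_le_of_forall_le
  intro k _
  rcases Nat.lt_or_ge N (2 * k) with h | h
  · rw [cc_zero N k h]
    simp
  · refine le_trans (natCast_mul_natDegree _ _) (le_trans (G0_term_natDegree N k h) (by omega))

lemma G0_top {K : Type*} [Field K] (N : ℕ) : (G0 N : K[X]).coeff (4 * N) = (-823543) ^ N := by
  unfold G0
  rw [Finset.sum_range_succ', coeff_add, finsetSum_coeff, Finset.sum_eq_zero, zero_add]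
  · have e : ((cc N 0 : ℕ) : K[X]) = 1 := by
      unfold cc
      simp
    rw [e, one_mul, pow_zero, one_mul, Nat.mul_zero, Nat.sub_zero, mul_comm 4 N,
      coeff_pow_of_natDegree_le Ee_natDegree]
    congr 1
    unfold Ee
    simp only [coeff_sub, coeff_ofNat_mul, coeff_one, coeff_X, coeff_X_pow]
    norm_num
  · intro k _
    rcases Nat.lt_or_ge N (2 * (k + 1)) with h | h
    · rw [cc_zero N (k + 1) h]
      simp
    · apply coeff_eq_zero_of_natDegree_lt
      refine lt_of_le_of_lt (natCast_mul_natDegree _ _) (lt_of_le_of_lt (G0_term_natDegree N (k + 1) h) (by omega))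

lemma G0_zero {K : Type*} [Field K] (N : ℕ) : (G0 N : K[X]).coeff 0 = 1 := by
  unfold G0
  rw [Finset.sum_range_succ', coeff_add, finsetSum_coeff, Finset.sum_eq_zero, zero_add]
  · have e : ((cc N 0 : ℕ) : K[X]) = 1 := by
      unfold cc
      simp
    rw [e, one_mul, pow_zero, one_mul, Nat.mul_zero, Nat.sub_zero, coeff_zero_eq_eval_zero, eval_pow]
    unfold Ee
    simp
  · intro k _
    rw [coeff_zero_eq_eval_zero]
    unfold Sx
    simp

lemma Ka_natDegree {K : Type*} [Field K] : (Ka : K[X]).natDegree ≤ 2 := by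
  rw [natDegree_le_iff_coeff_eq_zero]
  intro N hN
  unfold Ka
  simp only [coeff_add, coeff_ofNat_mul, coeff_one, coeff_X, coeff_X_pow]
  rw [if_neg (by omega), if_neg (by omega), if_neg (by omega)]
  ring

theorem alpha (hp : 11 ≤ p) (M : ℕ) (hM : p = 3 * M + 1 ∨ p = 3 * M + 2)
    (h7 : (-7 : ZMod p) ^ (p / 2) = 1) (a : ℕ → ZMod p) (a0 : a 0 = 1) (a1 : a 1 = 2)
    (hr : ∀ n : ℕ, ((n : ZMod p) + 2) ^ 2 * a (n + 2)
      = (26 * ((n : ZMod p) + 1) ^ 2 + 13 * (n + 1) + 2) * a (n + 1) + 3 * (3 * n + 2) * (3 * n + 1) * a n) :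
    a (M + 1) = 0 := by
  have hm := m_rel p M hM
  have hS := Wp_Lh_last a a0 a1 M (by omega) (fun n _ => hr n) hm
  have hS0 := Wp_coeff_zero a a0 M
  have hSt := Wp_coeff_top a a0 M
  have hSd := Wp_natDegree a M
  have hp0 : ((p : ℕ) : ZMod p) = 0 := ZMod.natCast_self p
  have h4' : ((4 : ℕ) : ZMod p) ≠ 0 := cast_ne' p 4 0 (by omega) (by omega)
  have h4 : (4 : (ZMod p)[X]) ≠ 0 := by
    push_cast at h4'
    intro h
    apply h4'
    have := congrArg (fun f => eval 0 f) h
    simpa using this
  have hodd : p % 2 = 1 := by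
    rcases Nat.Prime.eq_two_or_odd (Fact.out : p.Prime) with h | h
    · omega
    · exact h
  obtain ⟨G, hGd, hG0, hGt, hGL⟩ : ∃ G : (ZMod p)[X], G.natDegree ≤ 2 * M ∧ G.coeff 0 = 1 ∧
      G.coeff (2 * M) = 49 ^ M ∧ Lh (M : ZMod p) G = 0 := by
    have hpC : ((p : ℕ) : (ZMod p)[X]) = 0 := by simp
    rcases hM with h | h
    · -- p = 3 M + 1, M even
      obtain ⟨N, hN⟩ : ∃ N, M = 2 * N := ⟨M / 2, by omega⟩
      have hpN : p = 6 * N + 1 := by omega
      refine ⟨G0 N, ?_, G0_zero N, ?_, ?_⟩
      · have := G0_natDegree (K := ZMod p) N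
        omega
      · rw [hN, show 2 * (2 * N) = 4 * N by ring, G0_top]
        have e : p / 2 = 3 * N := by omega
        rw [e] at h7
        have e2 : (-823543 : ZMod p) = (-7) ^ 7 := by norm_num
        have e3 : (49 : ZMod p) = (-7) ^ 2 := by norm_num
        rw [e2, e3, ← pow_mul, ← pow_mul, show 7 * N = 3 * N + 2 * (2 * N) by ring, pow_add, h7, one_mul]
      · apply L_one N _ h4
        · rw [hN]
          push_cast
          simp only [map_mul, map_add, map_one, map_natCast, map_ofNat]
        · have h5 := congrArg (fun x : ℕ => (x : (ZMod p)[X])) hpN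
          simp only [hpC] at h5
          push_cast at h5
          exact h5.symm
    · obtain ⟨N, hN⟩ : ∃ N, M = 2 * N + 1 := ⟨M / 2, by omega⟩
      have hpN : p = 6 * N + 5 := by omega
      refine ⟨Ka * G0 N, ?_, ?_, ?_, ?_⟩
      · have h1 := G0_natDegree (K := ZMod p) N
        have h2 := Ka_natDegree (K := ZMod p)
        have h3 := natDegree_mul_le (p := (Ka : (ZMod p)[X])) (q := G0 N)
        omega
      · rw [mul_coeff_zero, G0_zero, mul_one, coeff_zero_eq_eval_zero]
        unfold Ka
        simp
      · rw [hN, show 2 * (2 * N + 1) = 2 + 4 * N by ring,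
          coeff_mul_add_eq_of_natDegree_le Ka_natDegree (G0_natDegree N), G0_top]
        have e : p / 2 = 3 * N + 2 := by omega
        rw [e] at h7
        have e1 : (Ka : (ZMod p)[X]).coeff 2 = (-7) ^ 4 := by
          unfold Ka
          simp only [coeff_add, coeff_ofNat_mul, coeff_one, coeff_X, coeff_X_pow]
          norm_num
        have e2 : (-823543 : ZMod p) = (-7) ^ 7 := by norm_num
        have e3 : (49 : ZMod p) = (-7) ^ 2 := by norm_num
        rw [e1, e2, e3, ← pow_mul, ← pow_mul, ← pow_add,
          show 4 + 7 * N = (3 * N + 2) + 2 * (2 * N + 1) by ring, pow_add, h7, one_mul]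
      · apply L_two N _ h4
        · rw [hN]
          push_cast
          simp only [map_mul, map_add, map_one, map_natCast, map_ofNat]
        · have h5 := congrArg (fun x : ℕ => (x : (ZMod p)[X])) hpN
          simp only [hpC] at h5
          push_cast at h5
          exact h5.symm
  have hfin := compare p hp M hM (-(9 * (((M : ZMod p) + 1) ^ 2 * a (M + 1)))) (Wp a M (M + 1) - G)
    (le_trans (natDegree_sub_le _ _) (max_le hSd hGd))
    (by rw [coeff_sub, hS0, hG0, sub_self])
    (by rw [coeff_sub, hSt, hGt, sub_self])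
    (by rw [Lh_sub, hS, hGL, sub_zero])
  have h9 : (9 : ZMod p) ≠ 0 := by
    have := cast_ne' p 9 0 (by omega) (by omega)
    push_cast at this
    exact this
  have hM1 : ((M : ZMod p) + 1) ^ 2 ≠ 0 := by
    have := cast_ne' p (M + 1) 0 (by omega) (by omega)
    push_cast at this
    exact pow_ne_zero 2 this
  rw [neg_eq_zero] at hfin
  exact (mul_eq_zero.mp ((mul_eq_zero.mp hfin).resolve_left h9)).resolve_left hM1

end charp

end Pool.Agent.Lib.MP1f269e
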