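import Mathlib
import Pool.Agent.Lib.MP_1f269e_nt.E
import Pool.Agent.Lib.MP_1f269e_nt.K

set_option autoImplicit false

namespace Pool.Agent.Lib.MP1f269e

open Polynomial

section big

variable (p : ℕ) [Fact p.Prime]

lemma mk_Dat (hp : 11 ≤ p) (M q : ℕ) (hM : p = 3 * M + 1 ∨ p = 3 * M + 2) (hq : p = 2 * q + 1)
    (ht : ∀ k, M < k → k < p → ((tz k : ℤ) : ZMod p) = 0) :
    Dat p M q (Po (fun k => ((tz k : ℤ) : ZMod p)) (M + 1)) := by
  have hc : ∀ k, k < p → (Po (fun k => ((tz k : ℤ) : ZMod p)) (M + 1)).coeff k = ((tz k : ℤ) : ZMod p) := by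
    intro k hk
    rw [coeff_Po]
    by_cases h : k < M + 1
    · rw [if_pos h]
    · rw [if_neg h, ht k (by omega) hk]
  refine ⟨hp, hM, hq, ?_, ?_, ?_⟩
  · rw [hc 0 (by omega), tz_zero]; simp
  · ext n
    rw [coeff_zero]
    rcases n with _ | _ | n
    · rw [coeff_Lx_zero]
    · rw [zero_add, coeff_Lx_one, hc 1 (by omega), hc 0 (by omega), tz_zero, tz_one]
      push_cast; ring
    · rw [show n + 1 + 1 = n + 2 by ring, coeff_Lx]
      by_cases h : n + 2 < p
      · rw [hc n (by omega), hc (n + 1) (by omega), hc (n + 2) h]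
        have := a_rec p n
        linear_combination this
      · rw [coeff_Po, coeff_Po, coeff_Po, if_neg (by omega), if_neg (by omega), if_neg (by omega)]
        ring
  · rw [natDegree_le_iff_coeff_eq_zero]
    intro N hN
    rw [coeff_Po, if_neg (by omega)]

lemma p_dvd_tail (hp : 5 ≤ p) (M : ℕ) (hM : p = 3 * M + 1 ∨ p = 3 * M + 2)
    (ht : ∀ k, M < k → k < p → ((tz k : ℤ) : ZMod p) = 0) (m k : ℕ) (h1 : M < k) (h2 : k < p) :
    (p : ℤ) ∣ tz (p * m + k) := by
  rw [← ZMod.intCast_zmod_eq_zero_iff_dvd, a_block p hp M hM ht m k h2, ht k h1 h2, zero_mul]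

lemma key_p2 (hp : 11 ≤ p) (M q : ℕ) (hM : p = 3 * M + 1 ∨ p = 3 * M + 2) (hq : p = 2 * q + 1)
    (ht : ∀ k, M < k → k < p → ((tz k : ℤ) : ZMod p) = 0) (m : ℕ) :
    (p : ℤ) ^ 2 ∣ tz (p * m + (p - 1)) := by
  have hD := mk_Dat p hp M q hM hq ht
  have hdv := p_dvd_tail p (by omega) M hM ht m
  have hp0 : ((p : ℕ) : ZMod p) = 0 := ZMod.natCast_self p
  have hpZ : (p : ℤ) ≠ 0 := by
    have : 0 < p := by omega
    exact_mod_cast this.ne'
  choose! z hz using hdv
  set Y : (ZMod p)[X] := Po (fun k => if M < k then ((z k : ℤ) : ZMod p) else 0) p with hY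
  have hYc : ∀ k, M < k → k < p → Y.coeff k = ((z k : ℤ) : ZMod p) := by
    intro k h1 h2
    rw [hY, coeff_Po, if_pos h2, if_pos h1]
  have hfin := hD.key Y (by
    rw [natDegree_le_iff_coeff_eq_zero]
    intro N hN
    rw [hY, coeff_Po, if_neg (by omega)]) (by
    intro N h1 h2
    obtain ⟨n, rfl⟩ := Nat.exists_eq_add_of_le' (show 2 ≤ N by omega)
    rw [coeff_Lx]
    have hr := tz_rec (p * m + n)
    by_cases h3 : n + 2 < p
    · rw [hYc n (by omega) (by omega), hYc (n + 1) (by omega) (by omega), hYc (n + 2) (by omega) (by omega)]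
      rw [show p * m + n + 2 = p * m + (n + 2) by ring, show p * m + n + 1 = p * m + (n + 1) by ring,
        hz (n + 2) (by omega) (by omega), hz (n + 1) (by omega) (by omega), hz n (by omega) (by omega)] at hr
      have hr2 : (((p * m + n : ℕ) : ℤ) + 2) ^ 2 * z (n + 2)
          = (26 * (((p * m + n : ℕ) : ℤ) + 1) ^ 2 + 13 * (((p * m + n : ℕ) : ℤ) + 1) + 2) * z (n + 1)
            + 3 * (3 * ((p * m + n : ℕ) : ℤ) + 2) * (3 * ((p * m + n : ℕ) : ℤ) + 1) * z n := by
        apply mul_left_cancel₀ hpZ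
        linear_combination hr
      have hr3 := congrArg (fun x : ℤ => (x : ZMod p)) hr2
      push_cast at hr3
      rw [hp0] at hr3
      linear_combination hr3
    · have h4 : n + 2 = p := by omega
      rw [hYc n (by omega) (by omega), hYc (n + 1) (by omega) (by omega)]
      rw [show p * m + n + 1 = p * m + (n + 1) by ring,
        hz (n + 1) (by omega) (by omega), hz n (by omega) (by omega)] at hr
      have h5 : ((p * m + n : ℕ) : ℤ) + 2 = p * (m + 1) := by
        have : ((n + 2 : ℕ) : ℤ) = (p : ℤ) := by rw [h4]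
        push_cast at this ⊢
        linear_combination this
      have hr2 : (p : ℤ) * ((m : ℤ) + 1) ^ 2 * tz (p * m + n + 2)
          = (26 * (((p * m + n : ℕ) : ℤ) + 1) ^ 2 + 13 * (((p * m + n : ℕ) : ℤ) + 1) + 2) * z (n + 1)
            + 3 * (3 * ((p * m + n : ℕ) : ℤ) + 2) * (3 * ((p * m + n : ℕ) : ℤ) + 1) * z n := by
        apply mul_left_cancel₀ hpZ
        rw [h5] at hr
        linear_combination hr
      have hr3 := congrArg (fun x : ℤ => (x : ZMod p)) hr2
      push_cast at hr3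
      rw [hp0] at hr3
      have h6 : (n : ZMod p) + 2 = 0 := by
        have : ((n + 2 : ℕ) : ZMod p) = ((p : ℕ) : ZMod p) := by rw [h4]
        rw [hp0] at this
        push_cast at this
        exact this
      rw [h6]
      linear_combination hr3)
  rw [hYc (p - 1) (by omega) (by omega), ZMod.intCast_zmod_eq_zero_iff_dvd] at hfin
  rw [hz (p - 1) (by omega) (by omega), pow_two]
  exact mul_dvd_mul_left _ hfin

lemma descend (hp : 11 ≤ p) (M q : ℕ) (hM : p = 3 * M + 1 ∨ p = 3 * M + 2) (hq : p = 2 * q + 1)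
    (ht : ∀ k, M < k → k < p → ((tz k : ℤ) : ZMod p) = 0) (m : ℕ) :
    ∀ j, j < M → (p : ℤ) ^ 2 ∣ tz (p * m + (p - 1 - j)) := by
  have hp0 : ((p : ℕ) : ZMod p) = 0 := ZMod.natCast_self p
  have hpI : Prime (p : ℤ) := Nat.prime_iff_prime_int.mp Fact.out
  intro j
  induction j using Nat.strong_induction_on with
  | _ j ih =>
    intro hj
    rcases j with _ | j
    · exact key_p2 p hp M q hM hq ht m
    · obtain ⟨n, hn⟩ : ∃ n, p - 1 - (j + 1) = n := ⟨_, rfl⟩
      have hr := tz_rec (p * m + n)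
      have d1 : (p : ℤ) ^ 2 ∣ tz (p * m + n + 1) := by
        have := ih j (by omega) (by omega)
        rw [show p * m + (p - 1 - j) = p * m + n + 1 by omega] at this
        exact this
      have d2 : (p : ℤ) ^ 2 ∣ (((p * m + n : ℕ) : ℤ) + 2) ^ 2 * tz (p * m + n + 2) := by
        rcases j with _ | j
        · have h5 : ((p * m + n : ℕ) : ℤ) + 2 = p * (m + 1) := by
            have : ((n + 2 : ℕ) : ℤ) = (p : ℤ) := by congr 1; omega
            push_cast at this ⊢
            linear_combination this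
          rw [h5]
          exact Dvd.dvd.mul_right (pow_dvd_pow_of_dvd (Dvd.intro _ rfl) 2) _
        · have := ih j (by omega) (by omega)
          rw [show p * m + (p - 1 - j) = p * m + n + 2 by omega] at this
          exact Dvd.dvd.mul_left this _
      have d3 : (p : ℤ) ^ 2 ∣ (3 * (3 * ((p * m + n : ℕ) : ℤ) + 2) * (3 * ((p * m + n : ℕ) : ℤ) + 1))
          * tz (p * m + n) := by
        rw [hr] at d2
        exact (dvd_add_right (Dvd.dvd.mul_left d1 _)).mp d2
      have hcop : IsCoprime ((p : ℤ) ^ 2)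
          (3 * (3 * ((p * m + n : ℕ) : ℤ) + 2) * (3 * ((p * m + n : ℕ) : ℤ) + 1)) := by
        apply IsCoprime.pow_left
        rw [Prime.coprime_iff_not_dvd hpI, ← ZMod.intCast_zmod_eq_zero_iff_dvd]
        have e1 : (n : ZMod p) = -((j + 2 : ℕ) : ZMod p) := by
          have : ((n + (j + 2) : ℕ) : ZMod p) = ((p : ℕ) : ZMod p) := by congr 1; omega
          rw [hp0] at this
          push_cast at this ⊢
          linear_combination this
        push_cast
        rw [hp0, zero_mul, zero_add, e1]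
        have n1 : ((3 * j + 4 : ℕ) : ZMod p) ≠ 0 := cast_ne' p _ 0 (by omega) (by omega)
        have n2 : ((3 * j + 5 : ℕ) : ZMod p) ≠ 0 := cast_ne' p _ 0 (by omega) (by omega)
        have n3 : ((3 : ℕ) : ZMod p) ≠ 0 := cast_ne' p _ 0 (by omega) (by omega)
        push_cast at n1 n2 n3
        have n4 := mul_ne_zero (mul_ne_zero n3 n1) n2
        intro h
        apply n4
        push_cast at h
        linear_combination h
      rw [hn]
      exact hcop.dvd_of_dvd_mul_left d3

theorem case_big (hp : 11 ≤ p) (M : ℕ) (hM : p = 3 * M + 1 ∨ p = 3 * M + 2)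
    (h7 : (-7 : ZMod p) ^ (p / 2) = 1) (n : ℕ) : (p : ℤ) ^ 2 ∣ tz (p * n) - tz n := by
  have halpha : ((tz (M + 1) : ℤ) : ZMod p) = 0 :=
    alpha p hp M hM h7 (fun k => ((tz k : ℤ) : ZMod p)) (by simp [tz_zero]) (by simp [tz_one]) (a_rec p)
  have ht := a_tail p M hM halpha
  have hodd : p % 2 = 1 := by
    rcases Nat.Prime.eq_two_or_odd (Fact.out : p.Prime) with h | h
    · omega
    · exact h
  have hd := descend p hp M (p / 2) hM (by omega) ht
  have hdv := p_dvd_tail p (by omega) M hM ht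
  have hcast : ((p ^ 2 : ℕ) : ℤ) = (p : ℤ) ^ 2 := by push_cast; ring
  have key : ∀ n, ((tz (p * n) : ℤ) : ZMod (p ^ 2)) = ((tz n : ℤ) : ZMod (p ^ 2)) := by
    apply conv_unique (R := ZMod (p ^ 2)) _ (fun n => ((tz (p * n) : ℤ) : ZMod (p ^ 2)))
      (fun n => ((tz n : ℤ) : ZMod (p ^ 2)))
    · simp [tz_zero]
    · simp [tz_zero]
    · intro n
      have h1 := congrArg (fun x : ℤ => (x : ZMod (p ^ 2))) (tz_conv n)
      have h2 := congrArg (fun x : ℤ => (x : ZMod (p ^ 2))) (tz_conv (p * n))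
      push_cast at h1 h2
      rw [TT_pmul p (Fact.out) n, ← h1, sum_pmul p (Fact.out : p.Prime).pos] at h2
      · rw [← h2]
        apply Finset.sum_congr rfl
        intro j _
        rw [Nat.mul_sub]
      · intro J hJ hd'
        obtain ⟨m, m', k, hk0, hk1, hJ1, hJ2, _⟩ := exists_block p n J hJ hd'
        have : (p : ℤ) ^ 2 ∣ tz J * tz (p * n - J) := by
          rw [hJ2, hJ1]
          rcases Nat.lt_or_ge M k with h | h
          · rcases Nat.lt_or_ge M (p - k) with h' | h'
            · rw [pow_two]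
              exact mul_dvd_mul (hdv m k h hk1) (hdv m' (p - k) h' (by omega))
            · have := hd m (p - 1 - k) (by omega)
              rw [show p - 1 - (p - 1 - k) = k by omega] at this
              exact Dvd.dvd.mul_right this _
          · have := hd m' (k - 1) (by omega)
            rw [show p - 1 - (k - 1) = p - k by omega] at this
            exact Dvd.dvd.mul_left this _
        rw [← hcast, ← ZMod.intCast_zmod_eq_zero_iff_dvd] at this
        push_cast at this
        exact this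
    · intro x hx
      have hu : IsUnit ((2 : ℕ) : ZMod (p ^ 2)) := by
        rw [ZMod.isUnit_iff_coprime]
        apply Nat.Coprime.pow_right
        exact (Nat.coprime_two_left.mpr (Nat.odd_iff.mpr hodd))
      push_cast at hu
      exact (IsUnit.mul_right_eq_zero hu).mp hx
  have := key n
  rw [← sub_eq_zero, ← Int.cast_sub, ZMod.intCast_zmod_eq_zero_iff_dvd, hcast] at this
  exact this

end big

section seven

instance : Fact (Nat.Prime 7) := ⟨by norm_num⟩

lemma tz_two : tz 2 = 22 := by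
  have h := tz_rec 0
  rw [tz_zero, zero_add, zero_add, tz_one] at h
  push_cast at h
  linarith

lemma tz_three : tz 3 = 336 := by
  have h := tz_rec 1
  rw [show 1 + 2 = 3 by rfl, show 1 + 1 = 2 by rfl, tz_two, tz_one] at h
  push_cast at h
  linarith

lemma sum_seven {R : Type*} [CommRing R] (f : ℕ → R) (n : ℕ) :
    ∑ J ∈ Finset.range (7 * n + 1), f J = ∑ j ∈ Finset.range (n + 1), f (7 * j)
      + ∑ m ∈ Finset.range n, (f (7 * m + 1) + f (7 * m + 2) + f (7 * m + 3) + f (7 * m + 4)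
        + f (7 * m + 5) + f (7 * m + 6)) := by
  induction n with
  | zero => simp
  | succ n ih =>
    rw [show 7 * (n + 1) + 1 = 7 * n + 1 + 1 + 1 + 1 + 1 + 1 + 1 + 1 by ring]
    rw [Finset.sum_range_succ, Finset.sum_range_succ, Finset.sum_range_succ, Finset.sum_range_succ,
      Finset.sum_range_succ, Finset.sum_range_succ, Finset.sum_range_succ, ih,
      Finset.sum_range_succ (fun j => f (7 * j)) (n + 1),
      Finset.sum_range_succ (fun m => (f (7 * m + 1) + f (7 * m + 2) + f (7 * m + 3) + f (7 * m + 4)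
        + f (7 * m + 5) + f (7 * m + 6))) n]
    rw [show 7 * (n + 1) = 7 * n + 1 + 1 + 1 + 1 + 1 + 1 + 1 by ring]
    rw [show 7 * n + 2 = 7 * n + 1 + 1 by ring, show 7 * n + 3 = 7 * n + 1 + 1 + 1 by ring,
      show 7 * n + 4 = 7 * n + 1 + 1 + 1 + 1 by ring, show 7 * n + 5 = 7 * n + 1 + 1 + 1 + 1 + 1 by ring,
      show 7 * n + 6 = 7 * n + 1 + 1 + 1 + 1 + 1 + 1 by ring]
    ring

lemma pair_seven (m m' : ℕ) (h : ∀ n k, 2 < k → k < 7 → (7 : ℤ) ∣ tz (7 * n + k))
    (h1 : (7 : ℤ) ∣ tz (7 * m + 1) - 2 * tz m) (h2 : (7 : ℤ) ∣ tz (7 * m + 2) - 22 * tz m) :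
    (49 : ℤ) ∣ tz (7 * m + 1) * tz (7 * m' + 6) + tz (7 * m + 2) * tz (7 * m' + 5) := by
  obtain ⟨z6, hz6⟩ := h m' 6 (by omega) (by omega)
  obtain ⟨z5, hz5⟩ := h m' 5 (by omega) (by omega)
  obtain ⟨a, ha⟩ := h1
  obtain ⟨b, hb⟩ := h2
  have hr := tz_rec (7 * m' + 5)
  rw [show 7 * m' + 5 + 1 = 7 * m' + 6 by ring, hz6, hz5] at hr
  push_cast at hr
  have h3 : z6 + 4 * z5 = 7 * (((m' : ℤ) + 1) ^ 2 * tz (7 * m' + 5 + 2)
      - (182 * (m' : ℤ) ^ 2 + 325 * m' + 145) * z6 - (189 * (m' : ℤ) ^ 2 + 297 * m' + 116) * z5) := by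
    have h7 : (7 : ℤ) ≠ 0 := by norm_num
    apply mul_left_cancel₀ h7
    linear_combination -hr
  rw [hz6, hz5]
  refine ⟨2 * (((m' : ℤ) + 1) ^ 2 * tz (7 * m' + 5 + 2)
      - (182 * (m' : ℤ) ^ 2 + 325 * m' + 145) * z6 - (189 * (m' : ℤ) ^ 2 + 297 * m' + 116) * z5) * tz m
      + 2 * tz m * z5 + a * z6 + b * z5, ?_⟩
  linear_combination (7 * z6) * ha + (7 * z5) * hb + (14 * tz m) * h3

theorem case_seven (n : ℕ) : (7 : ℤ) ^ 2 ∣ tz (7 * n) - tz n := by
  have h3 : ((tz (2 + 1) : ℤ) : ZMod 7) = 0 := by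
    rw [show 2 + 1 = 3 by rfl, tz_three]
    decide
  have ht := a_tail 7 2 (Or.inl (by norm_num)) h3
  have hb := a_block 7 (by norm_num) 2 (Or.inl (by norm_num)) ht
  have hm := a_mul 7 (by norm_num) 2 (Or.inl (by norm_num)) ht
  have hdv : ∀ n k, 2 < k → k < 7 → (7 : ℤ) ∣ tz (7 * n + k) := by
    intro n k h1 h2
    exact p_dvd_tail 7 (by norm_num) 2 (Or.inl (by norm_num)) ht n k h1 h2
  have hu : ∀ m, (7 : ℤ) ∣ tz (7 * m + 1) - 2 * tz m := by
    intro m
    have h1 := hb m 1 (by norm_num)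
    rw [hm m, tz_one] at h1
    have h2 : ((tz (7 * m + 1) - 2 * tz m : ℤ) : ZMod 7) = 0 := by
      push_cast
      rw [h1]
      push_cast
      ring
    exact (ZMod.intCast_zmod_eq_zero_iff_dvd _ 7).mp h2
  have hv : ∀ m, (7 : ℤ) ∣ tz (7 * m + 2) - 22 * tz m := by
    intro m
    have h1 := hb m 2 (by norm_num)
    rw [hm m, tz_two] at h1
    have h2 : ((tz (7 * m + 2) - 22 * tz m : ℤ) : ZMod 7) = 0 := by
      push_cast
      rw [h1]
      push_cast
      ring
    exact (ZMod.intCast_zmod_eq_zero_iff_dvd _ 7).mp h2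
  have key : ∀ n, ((tz (7 * n) : ℤ) : ZMod 49) = ((tz n : ℤ) : ZMod 49) := by
    apply conv_unique (R := ZMod 49) (by decide) (fun n => ((tz (7 * n) : ℤ) : ZMod 49))
      (fun n => ((tz n : ℤ) : ZMod 49))
    · simp [tz_zero]
    · simp [tz_zero]
    · intro n
      have h1 := congrArg (fun x : ℤ => (x : ZMod 49)) (tz_conv n)
      have h2 := congrArg (fun x : ℤ => (x : ZMod 49)) (tz_conv (7 * n))
      push_cast at h1 h2
      have h4 : ((TT (7 * n) : ℕ) : ZMod 49) = ((TT n : ℕ) : ZMod 49) := TT_pmul 7 (by norm_num) n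
      rw [h4, ← h1, sum_seven] at h2
      rw [← h2]
      rw [show ∑ m ∈ Finset.range n, _ = (0 : ZMod 49) from ?_, add_zero]
      · apply Finset.sum_congr rfl
        intro j _
        rw [Nat.mul_sub]
      · apply Finset.sum_eq_zero
        intro m hmn
        rw [Finset.mem_range] at hmn
        obtain ⟨m', hm'⟩ := Nat.exists_eq_add_of_lt hmn
        subst hm'
        rw [show 7 * (m + m' + 1) - (7 * m + 1) = 7 * m' + 6 by omega,
          show 7 * (m + m' + 1) - (7 * m + 2) = 7 * m' + 5 by omega,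
          show 7 * (m + m' + 1) - (7 * m + 3) = 7 * m' + 4 by omega,
          show 7 * (m + m' + 1) - (7 * m + 4) = 7 * m' + 3 by omega,
          show 7 * (m + m' + 1) - (7 * m + 5) = 7 * m' + 2 by omega,
          show 7 * (m + m' + 1) - (7 * m + 6) = 7 * m' + 1 by omega]
        have p1 := pair_seven m m' hdv (hu m) (hv m)
        have p2 := pair_seven m' m hdv (hu m') (hv m')
        have p3 : (49 : ℤ) ∣ tz (7 * m + 3) * tz (7 * m' + 4) :=
          mul_dvd_mul (hdv m 3 (by omega) (by omega)) (hdv m' 4 (by omega) (by omega))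
        have p4 : (49 : ℤ) ∣ tz (7 * m + 4) * tz (7 * m' + 3) :=
          mul_dvd_mul (hdv m 4 (by omega) (by omega)) (hdv m' 3 (by omega) (by omega))
        have p5 := dvd_add (dvd_add p1 p2) (dvd_add p3 p4)
        have p6 := (ZMod.intCast_zmod_eq_zero_iff_dvd _ 49).mpr p5
        push_cast at p6
        linear_combination p6
  have := key n
  rw [← sub_eq_zero, ← Int.cast_sub] at this
  have h5 := (ZMod.intCast_zmod_eq_zero_iff_dvd _ 49).mp this
  have h6 : ((49 : ℕ) : ℤ) = (7 : ℤ) ^ 2 := by norm_num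
  rw [h6] at h5
  exact h5

end seven

end Pool.Agent.Lib.MP1f269e
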